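import Mathlib

/-!
# MP_7500ea_al, board fcn_modules: targets on permutation groups and numbers of conjugacy classes
-/

open scoped Classical

namespace FI

open MulAction

/-- the number of conjugacy classes -/
noncomputable abbrev kc (G : Type) [Group G] : ℕ := Nat.card (ConjClasses G)

/-! ## Numbers of conjugacy classes -/

/-- NAG: normal subgroups -/
def T_NAG : Prop := ∀ (G : Type) [Group G] [Finite G] (N : Subgroup G) [N.Normal],
  kc G ≤ kc N * kc (G ⧸ N)

/-- KSB: subgroups -/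
def T_KSB : Prop := ∀ (G : Type) [Group G] [Finite G] (H : Subgroup G), kc H ≤ H.index * kc G

/-- KSN: the symmetric group -/
def T_KSN : Prop := ∀ (α : Type) [Finite α], kc (Equiv.Perm α) ≤ 2 ^ (Nat.card α - 1)

/-- the number of orbits -/
noncomputable abbrev norb (α : Type) (T : Subgroup (Equiv.Perm α)) : ℕ :=
  Nat.card (orbitRel.Quotient T α)

/-- the bound for the number of conjugacy classes of a permutation group -/
def PB (C : ℝ) (α : Type) (T : Subgroup (Equiv.Perm α)) : Prop :=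
  (kc T : ℝ) ≤ C ^ (Nat.card α - norb α T)

/-- KPI: intransitive groups -/
def T_KPI : Prop := ∀ C : ℝ, 1 ≤ C → ∀ (α : Type) [Finite α],
  (∀ (β : Type) [Finite β] (T : Subgroup (Equiv.Perm β)), Nat.card β < Nat.card α → PB C β T) →
  ∀ T : Subgroup (Equiv.Perm α), 2 ≤ norb α T → PB C α T

/-- KPB: imprimitive groups -/
def T_KPB : Prop := ∀ C : ℝ, 1 ≤ C → ∀ (α : Type) [Finite α],
  (∀ (β : Type) [Finite β] (T : Subgroup (Equiv.Perm β)), Nat.card β < Nat.card α → PB C β T) →
  (∀ T : Subgroup (Equiv.Perm α), 2 ≤ norb α T → PB C α T) →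
  ∀ T : Subgroup (Equiv.Perm α), IsPretransitive T α → ¬ IsPreprimitive T α → PB C α T

/-- KPP: primitive groups -/
def T_KPP : Prop := ∀ (α : Type) [Finite α] (T : Subgroup (Equiv.Perm α)),
  IsPreprimitive T α → PB (Real.exp 500) α T

/-- KPN: all permutation groups -/
def T_KPN : Prop := ∀ (α : Type) [Finite α] (T : Subgroup (Equiv.Perm α)),
  PB (Real.exp 500) α T

/-! ## Orders of primitive groups: tools -/

/-- HIT: a small set which meets many large sets -/
def T_HIT : Prop := ∀ (α : Type) [Finite α] (F : α → α → Finset α) (P : α → α → Prop) (d : ℝ),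
  0 < d → (∀ x y, P x y → d ≤ ((F x y).card : ℝ)) →
  ∃ B : Finset α, (∀ x y, P x y → ∃ b ∈ B, b ∈ F x y) ∧
    (B.card : ℝ) ≤ 2 * Nat.card α / d * Real.log (Nat.card α) + 1

/-- BAS: the order of a group with a small base -/
def T_BAS : Prop := ∀ (G α : Type) [Group G] [Finite α] [MulAction G α] (B : Finset α),
  (∀ g : G, (∀ b ∈ B, g • b = b) → g = 1) → Nat.card G ≤ Nat.card α ^ B.card

/-- CON: invariant graphs of primitive groups -/
def T_CON : Prop := ∀ (G α : Type) [Group G] [Finite α] [MulAction G α], IsPreprimitive G α →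
  ∀ X : SimpleGraph α, (∀ (g : G) (u v : α), X.Adj u v → X.Adj (g • u) (g • v)) →
  (∃ u v, X.Adj u v) →
  X.Connected ∧ ∀ (g : G) (u v : α), X.dist (g • u) (g • v) = X.dist u v

/-- DIA: the diameter of a graph -/
def T_DIA : Prop := ∀ (α : Type) [Finite α] (X : SimpleGraph α), X.Connected → ∀ a : ℕ,
  (∀ v, a ≤ (X.neighborSet v).ncard) → ∀ u v, X.dist u v * (a + 1) ≤ 3 * Nat.card α

/-- the points `z` such that no element of `G` maps `(x, z)` to `(y, z)` -/
def df (G : Type) {α : Type} [Group G] [MulAction G α] (x y : α) : Set α :=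
  {z | ∀ g : G, g • x = y → g • z ≠ z}

/-- UDM: the sets `df` -/
def T_UDM : Prop := ∀ (G α : Type) [Group G] [Finite α] [MulAction G α],
  (∀ x : α, df G x x = ∅) ∧ (∀ x y : α, df G x y = df G y x) ∧
  (∀ (g : G) (x y : α), (df G (g • x) (g • y)).ncard = (df G x y).ncard) ∧
  ∀ x y z : α, (df G x z).ncard ≤ (df G x y).ncard + (df G y z).ncard

/-- UD2: an average -/
def T_UD2 : Prop := ∀ (G α : Type) [Group G] [Finite α] [Nonempty α] [MulAction G α] (m : ℕ),
  (∀ x z : α, (orbit (stabilizer G x) z).ncard ≤ m) →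
  ∃ x y : α, Nat.card α ≤ (df G x y).ncard + m

/-- UD3: the neighbours -/
def T_UD3 : Prop := ∀ (G α : Type) [Group G] [Finite α] [MulAction G α], IsPreprimitive G α →
  ∀ x y : α, x ≠ y →
  Nat.card α ≤ 2 * (orbit (stabilizer G x) y).ncard * (df G x y).ncard + 1

/-- UD4: the diameter -/
def T_UD4 : Prop := ∀ (G α : Type) [Group G] [Finite α] [MulAction G α], IsPreprimitive G α →
  ∀ x y : α, x ≠ y → ∀ u v : α,
  (df G u v).ncard * ((orbit (stabilizer G x) y).ncard + 1) ≤
    3 * Nat.card α * (df G x y).ncard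

/-- UD5: the suborbits of a uniprimitive group -/
def T_UD5 : Prop := ∀ (G α : Type) [Group G] [Finite α] [MulAction G α], IsPreprimitive G α →
  ¬ IsMultiplyPretransitive G α 2 → ∀ x z : α,
  Nat.card α ≤ (Nat.card α - (orbit (stabilizer G x) z).ncard) ^ 2

/-- UPB: the sets `df` of a uniprimitive group -/
def T_UPB : Prop := ∀ (G α : Type) [Group G] [Finite α] [MulAction G α], IsPreprimitive G α →
  ¬ IsMultiplyPretransitive G α 2 → ∀ x y : α, x ≠ y →
  (Nat.card α : ℝ) ^ ((1 : ℝ) / 4) ≤ 7 / 2 * ((df G x y).ncard : ℝ)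

/-- UNI: the order of a uniprimitive group -/
def T_UNI : Prop := ∀ (G α : Type) [Group G] [Finite α] [MulAction G α] [FaithfulSMul G α],
  IsPreprimitive G α → ¬ IsMultiplyPretransitive G α 2 →
  (Nat.card G : ℝ) ≤ Real.exp (7 * (Nat.card α : ℝ) ^ ((3 : ℝ) / 4) *
    Real.log (Nat.card α) ^ 2 + Real.log (Nat.card α))

/-! ## Doubly transitive groups with imprimitive stabilisers -/

/-- `R x` is a `G_x`-invariant equivalence relation on the points different from `x` -/
structure IMr (G : Type) {α : Type} [Group G] [MulAction G α] (R : α → α → α → Prop) (b : ℕ) :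
    Prop where
  ne : ∀ x y z, R x y z → y ≠ x ∧ z ≠ x
  refl : ∀ x y, y ≠ x → R x y y
  symm : ∀ x y z, R x y z → R x z y
  trans : ∀ x y z w, R x y z → R x z w → R x y w
  inv : ∀ (g : G) (x y z : α), R x y z → R (g • x) (g • y) (g • z)
  crd : ∀ x y, y ≠ x → {z | R x y z}.ncard = b
  two : 2 ≤ b
  lt : b + 1 < Nat.card α

/-- IM1: the relations -/
def T_IM1 : Prop := ∀ (G α : Type) [Group G] [Finite α] [MulAction G α],
  IsMultiplyPretransitive G α 2 → ∀ x : α,
  ¬ IsPreprimitive (stabilizer G x) (SubMulAction.ofStabilizer G x) →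
  ∃ (R : α → α → α → Prop) (b : ℕ), IMr G R b

/-- the numbers of points which separate, do not separate -/
structure IMc {α : Type} (R : α → α → α → Prop) (b : ℕ) : Prop where
  eq : ∀ y z, y ≠ z → {x | R x y z}.ncard + 1 = b
  sep : ∀ y z, y ≠ z → Nat.card α ≤ 2 * {x | x ≠ y ∧ x ≠ z ∧ ¬ R x y z}.ncard + 1

/-- IM2: double counting -/
def T_IM2 : Prop := ∀ (G α : Type) [Group G] [Finite α] [MulAction G α],
  IsMultiplyPretransitive G α 2 → ∀ (R : α → α → α → Prop) (b : ℕ), IMr G R b → IMc R b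

/-- IM3: the first part of the base -/
def T_IM3 : Prop := ∀ (G α : Type) [Group G] [Finite α] [MulAction G α]
  (R : α → α → α → Prop) (b : ℕ), IMr G R b → IMc R b → ∀ M : ℕ, 4 * M ^ 2 + 1 ≤ Nat.card α →
  ∃ X : Finset α, (X.card : ℝ) ≤ M * (16 * Real.log (Nat.card α) + 1) ∧
    ∀ y z, y ≠ z → M ≤ {w | ∃ x ∈ X, x ≠ y ∧ x ≠ z ∧ ¬ R x y z ∧ (R x y w ∨ R x z w)}.ncard

/-- IMS: the order of a doubly transitive group with imprimitive stabilisers -/
def T_IMS : Prop := ∀ (G α : Type) [Group G] [Finite α] [MulAction G α] [FaithfulSMul G α],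
  IsMultiplyPretransitive G α 2 → ∀ x : α,
  ¬ IsPreprimitive (stabilizer G x) (SubMulAction.ofStabilizer G x) →
  (Nat.card G : ℝ) ≤ Real.exp (30 * Real.sqrt (Nat.card α) * Real.log (Nat.card α) ^ 2 +
    4 * Real.log (Nat.card α))

/-! ## Minimal degree and multiple transitivity -/

/-- CMS: the support of a commutator -/
def T_CMS : Prop := ∀ (α : Type) [Fintype α] [DecidableEq α] (g h : Equiv.Perm α),
  (g * h * g⁻¹ * h⁻¹).support.card ≤ 3 * (g.support ∩ h.support).card ∧
  ((g.support ∩ h.support).card = 1 → (g * h * g⁻¹ * h⁻¹).IsThreeCycle)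

/-- MDG: the minimal degree of a doubly transitive group without 3-cycles -/
def T_MDG : Prop := ∀ (α : Type) [Fintype α] [DecidableEq α] (G : Subgroup (Equiv.Perm α)),
  IsMultiplyPretransitive G α 2 → (∀ g ∈ G, ¬ g.IsThreeCycle) → 27 ≤ Nat.card α →
  ∀ g ∈ G, g ≠ 1 → Nat.card α < 5 * g.support.card

/-- MTR: multiple transitivity -/
def T_MTR : Prop := ∀ (α : Type) [Fintype α] [DecidableEq α] (G : Subgroup (Equiv.Perm α)),
  (∀ g ∈ G, g ≠ 1 → Nat.card α < 5 * g.support.card) →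
  ∀ t : ℕ, t ≤ Nat.card α → IsMultiplyPretransitive G α t →
  (t : ℝ) ≤ 62 * (Real.sqrt (Nat.card α) + 1)

/-- the exponent in the bound -/
noncomputable def LF (n : ℕ) : ℝ :=
  7 * (n : ℝ) ^ ((3 : ℝ) / 4) * Real.log n ^ 2 + 30 * Real.sqrt n * Real.log n ^ 2 +
    5 * Real.log n

/-- CHN: the chain of stabilisers -/
def T_CHN : Prop := ∀ (G α : Type) [Group G] [Finite α] [Nonempty α] [MulAction G α]
  [FaithfulSMul G α], IsPreprimitive G α →
  ∃ t : ℕ, t ≤ Nat.card α ∧ IsMultiplyPretransitive G α t ∧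
    (Nat.card G : ℝ) ≤ Real.exp (t * Real.log (Nat.card α) + LF (Nat.card α))

/-- NUA: numerical -/
def T_NUA : Prop := ∀ n : ℕ, 1 ≤ n → ∀ t : ℝ, t ≤ 62 * (Real.sqrt n + 1) →
  t * Real.log n + LF n ≤ 250 * n

/-- PRO: the order of a primitive group which does not contain the alternating group -/
def T_PRO : Prop := ∀ (α : Type) [Fintype α] [DecidableEq α] (G : Subgroup (Equiv.Perm α)),
  IsPreprimitive G α → ¬ alternatingGroup α ≤ G →
  (Nat.card G : ℝ) ≤ Real.exp (250 * Nat.card α)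

/-! ## Alternating groups -/

/-- A3C: automorphisms map 3-cycles to 3-cycles -/
def T_A3C : Prop := ∀ m : ℕ, 7 ≤ m → ∀ (φ : MulAut (alternatingGroup (Fin m)))
  (g : alternatingGroup (Fin m)), (g : Equiv.Perm (Fin m)).IsThreeCycle →
  ((φ g : alternatingGroup (Fin m)) : Equiv.Perm (Fin m)).IsThreeCycle

/-- A3I: automorphisms which map 3-cycles to 3-cycles -/
def T_A3I : Prop := ∀ m : ℕ, 5 ≤ m → ∀ (φ : MulAut (alternatingGroup (Fin m))),
  (∀ g : alternatingGroup (Fin m), (g : Equiv.Perm (Fin m)).IsThreeCycle →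
    ((φ g : alternatingGroup (Fin m)) : Equiv.Perm (Fin m)).IsThreeCycle) →
  ∃ σ : Equiv.Perm (Fin m), ∀ g : alternatingGroup (Fin m),
    ((φ g : alternatingGroup (Fin m)) : Equiv.Perm (Fin m)) = σ * g * σ⁻¹

/-- AUA: the number of automorphisms -/
def T_AUA : Prop := ∀ m : ℕ, 7 ≤ m →
  Nat.card (MulAut (alternatingGroup (Fin m))) ≤ m.factorial

/-- NAM: numerical -/
def T_NAM : Prop := ∀ e : ℝ, 91 / 25 ≤ e → ∀ m : ℕ, 20000 ≤ m →
  Real.exp 500 * 2 ^ m * (m.factorial : ℝ) ≤ ((m.factorial : ℝ) / 2) ^ (3 / 2 - 3 / (2 * e))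

end FI
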