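import Pool.Agent.H6.FN.Defs
import Pool.Agent.H6.FN.TargetsG
import Pool.Agent.H6.FC.Targets

/-!
# MP_7500ea_al, board fcn_modules: targets
-/

open scoped Classical ComplexConjugate

namespace FI

open AMc AMt

/-! ## Classes of groups -/

/-- TPN: normal subgroups -/
def T_TPN : Prop := ∀ (Q : (S : Type) → [Group S] → Prop), (∀ (S : Type) [Group S], Q S → NAS S) →
  ∀ (Y : Type) [Group Y] [Finite Y], Top Q Y → ∀ H : Subgroup Y, H.Normal → Top Q H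

/-- TPI: isomorphic groups -/
def T_TPI : Prop := ∀ (Q : (S : Type) → [Group S] → Prop) (Y Y' : Type) [Group Y] [Group Y'],
  Nonempty (Y ≃* Y') → Top Q Y → Top Q Y'

/-- SQN: factor groups -/
def T_SQN : Prop := ∀ (P : ℕ → (S : Type) → [Group S] → Prop)
  (Q : (S : Type) → [Group S] → Prop), Cla P →
  ∀ (G : Type) [Group G] [Finite G] (n : ℕ) (N : ℕ → Subgroup G), SerN P Q G n N →
  ∀ (M : Subgroup G) [M.Normal], M ≤ N n → SerT P Q (G ⧸ M)

/-- SLN: the solvable radical -/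
def T_SLN : Prop := ∀ (P : ℕ → (S : Type) → [Group S] → Prop)
  (Q : (S : Type) → [Group S] → Prop), (∀ (S : Type) [Group S], Q S → NAS S) →
  ∀ (G : Type) [Group G] [Finite G] (n : ℕ) (N : ℕ → Subgroup G), SerN P Q G n N → sol G ≤ N n

/-- SNN: normal subgroups -/
def T_SNN : Prop := ∀ (P : ℕ → (S : Type) → [Group S] → Prop)
  (Q : (S : Type) → [Group S] → Prop), Cla P → (∀ (S : Type) [Group S], Q S → NAS S) →
  ∀ (G : Type) [Group G] [Finite G] (H : Subgroup G), H.Normal → SerT P Q G → SerT P Q H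

/-- MLN: a normal subgroup `L ≅ S ^ k` -/
def T_MLN : Prop := ∀ (P : ℕ → (S : Type) → [Group S] → Prop)
  (Q : (S : Type) → [Group S] → Prop) (Y : Type) [Group Y] [Finite Y] (n : ℕ)
  (N : ℕ → Subgroup Y), sol Y = ⊥ → SerN P Q Y n N → N n ≠ ⊥ →
  ∃ (L : Subgroup Y) (_ : L.Normal) (k : ℕ) (S : Type) (_ : Group S) (_ : Finite S),
    L ≤ N n ∧ 1 ≤ k ∧ P k S ∧ Nonempty (L ≃* (Fin k → S))

/-- TKF: a normal subgroup `S ^ k` with trivial centralizer -/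
def T_TKF : Prop := ∀ e : ℝ, 3 ≤ e → ∀ (Y : Type) [Group Y] [Finite Y] (L : Subgroup Y),
  L.Normal → ∀ (k : ℕ) (S : Type) [Group S] [Finite S], Few e S →
  Nonempty (L ≃* (Fin k → S)) → (∀ y : Y, (∀ l ∈ L, y * l = l * y) → y = 1) →
  (kc Y : ℝ) ≤ (Nat.card Y : ℝ) ^ (1 / 2 - 3 / (2 * e))

/-- TKQ: the factor group by the centralizer -/
def T_TKQ : Prop := ∀ e : ℝ, 3 ≤ e → ∀ (Y : Type) [Group Y] [Finite Y] (L : Subgroup Y)
  [L.Normal] (k : ℕ) (S : Type) [Group S] [Finite S], Few e S →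
  Nonempty (L ≃* (Fin k → S)) →
  (kc (Y ⧸ Subgroup.centralizer (L : Set Y)) : ℝ) ≤
    ((Subgroup.centralizer (L : Set Y)).index : ℝ) ^ (1 / 2 - 3 / (2 * e))

/-- TKY: the number of conjugacy classes of `Y` -/
def T_TKY : Prop := ∀ e : ℝ, 3 ≤ e → ∀ (Y : Type) [Group Y] [Finite Y], Top (Few e) Y →
  (kc Y : ℝ) ≤ (Nat.card Y : ℝ) ^ (1 / 2 - 3 / (2 * e))

/-- the condition on the large subgroups of `Y` -/
def Kle (e : ℝ) (Y : Type) [Group Y] : Prop :=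
  ∀ T : Subgroup Y, (T.index : ℝ) < (Nat.card Y : ℝ) ^ (1 / e) →
    (kc T : ℝ) ≤ (Nat.card Y : ℝ) ^ (1 / 2 - 1 / e) * (T.index : ℝ) ^ ((1 : ℝ) / 2)

/-- CNK: few conjugacy classes of the large subgroups -/
def T_CNK : Prop := ∀ e : ℝ, 0 < e → ∀ (Y : Type) [Group Y] [Finite Y], Kle e Y → CEN e Y

/-- CNC: few conjugacy classes of `Y` -/
def T_CNC : Prop := ∀ e : ℝ, 0 < e → ∀ (Y : Type) [Group Y] [Finite Y],
  (kc Y : ℝ) ≤ (Nat.card Y : ℝ) ^ (1 / 2 - 3 / (2 * e)) → Kle e Y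

/-! ## Alternating groups -/

/-- CNA: alternating groups of large degree -/
def T_CNA : Prop := ∀ e : ℝ, 91 / 25 ≤ e → ∀ (S : Type) [Group S], Alt S → Few e S

/-! ## The theorem -/

/-- MA2: the claim -/
def T_MA2 : Prop := ∀ e : ℝ, 3 ≤ e → ∀ (Y : Type) [Group Y] [Finite Y],
  SerT (PP e) (Few e) Y → CA e Y

end FI
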