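import Pool.Agent.H6.FN.Targets2
import Pool.Agent.H6.FN.Targets
import Pool.Agent.H6.FC.Asm3

/-!
# MP_7500ea_al, board fcn_modules: assembly of the second wave
-/

open scoped Classical ComplexConjugate

namespace FI

open AMc AMt MulAction

/-- all permutation groups -/
theorem kn2 (KPI : T_KPI) (KPB : T_KPB) (KP2 : T_KP2) : T_KN2 := by
  have h1 : (1 : ℝ) ≤ Real.exp 20 := Real.one_le_exp (by norm_num)
  have key : ∀ (n : ℕ) (α : Type) [Finite α], Nat.card α = n →
      ∀ T : Subgroup (Equiv.Perm α), PB (Real.exp 20) α T := by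
    intro n
    induction n using Nat.strong_induction_on with
    | _ n ih =>
    intro α _ hn T
    have hih : ∀ (β : Type) [Finite β] (T : Subgroup (Equiv.Perm β)),
        Nat.card β < Nat.card α → PB (Real.exp 20) β T := by
      intro β _ T' hβ
      exact ih _ (hn ▸ hβ) β rfl T'
    have hI := KPI _ h1 α hih
    by_cases h2 : 2 ≤ norb α T
    · exact hI T h2
    · have htr : IsPretransitive T α := by
        rw [pretransitive_iff_subsingleton_quotient]
        have h3 : Nat.card (orbitRel.Quotient T α) ≤ 1 := by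
          have h4 : norb α T = Nat.card (orbitRel.Quotient T α) := rfl
          omega
        exact (Finite.card_le_one_iff_subsingleton).1 h3
      by_cases hp : IsPreprimitive T α
      · exact KP2 α T hp
      · exact KPB _ h1 α hih hI T htr hp
  intro α _ T
  exact key _ α rfl T

theorem cla_few (e : ℝ) : Cla (FewK e) := by
  constructor
  · intro k k' S _ hk h
    exact ⟨h.sim, h.nab, fun j hj P => h.num j (hj.trans hk) P⟩
  · intro k S _ h
    exact ⟨h.sim, h.nab⟩

theorem top_botk {P Q : ℕ → (S : Type) → [Group S] → Prop}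
    (TPIk : T_TPIk) (Y : Type) [Group Y] (n : ℕ) (N : ℕ → Subgroup Y) (h : SerNk P Q Y n N)
    (hN : N n = ⊥) : TopK Q Y := by
  obtain ⟨Y', _, f, hf, hk, hT⟩ := h.top
  have hinj : Function.Injective f := by
    rw [injective_iff_map_eq_one]
    intro x hx
    have := (hk x).1 hx
    rw [hN] at this
    exact this
  exact TPIk Q Y' Y ⟨(MulEquiv.ofBijective f ⟨hinj, hf⟩).symm⟩ hT

/-- the claim for groups with a series -/
theorem mak (KRN : T_KRN) (SLQ : T_SLQ) (TRD : T_TRD)
    (ST2 : T_ST2) (S1A : T_S1A) (S1E : T_S1E) (S1F : T_S1F) (S1C : T_S1C) (TPIk : T_TPIk)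
    (SQNk : T_SQNk) (SLNk : T_SLNk) (SNNk : T_SNNk) (MLNk : T_MLNk) (TKYk : T_TKYk)
    (CNK : T_CNK) (CNC : T_CNC) : T_MAk := by
  intro e he3
  have he : 1 ≤ e := by linarith
  have key : ∀ (n : ℕ) (Y : Type) [Group Y] [Finite Y], Nat.card Y = n →
      SerK (PP e) (FewK e) Y → CA e Y := by
    intro n
    induction n using Nat.strong_induction_on with
    | _ n ih =>
    intro Y _ _ hn hser0
    obtain ⟨len, N, hser⟩ := hser0
    by_cases hs : sol Y = ⊥
    swap
    · exact SLQ e Y (ih _ (hn ▸ sol_nt_card Y hs) _ rfl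
        (SQNk _ _ (cla_PP e) Y len N hser (sol Y) (SLNk _ _ (cla_few e) Y len N hser)))
    apply KRN e Y
    apply TRD e Y hs
    by_cases hN : N len = ⊥
    · exact CNK e (by linarith) Y (CNC e (by linarith) Y
        (TKYk e he3 Y (top_botk TPIk Y len N hser hN)))
    obtain ⟨L, hL, k, S, _, _, hLN, hk, hP, ⟨φ⟩⟩ := MLNk (PP e) _ Y len N hs hser hN
    have hnas : NAS S := (cla_PP e).nas k S hP
    have hL1 : L ≠ ⊥ := by
      intro h0
      obtain ⟨a, b, hab⟩ := hnas.nab
      apply hab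
      have hsub : Subsingleton L := by rw [h0]; infer_instance
      have h3 : Subsingleton (Fin k → S) := φ.symm.injective.subsingleton
      have h4 := congrFun (Subsingleton.elim (fun _ : Fin k => a) (fun _ => 1)) ⟨0, hk⟩
      have h5 : a = 1 := h4
      rw [h5, one_mul, mul_one]
    have hQ : CA e (Y ⧸ L) := ih _ (hn ▸ quo_card Y L hL1) _ rfl
      (SQNk _ _ (cla_PP e) Y len N hser L hLN)
    rcases hP with hg | ⟨hk1, hone⟩
    · exact ST2 e he Y hs L k S hk hg ⟨φ⟩ hQ
    · have hk2 : k = 1 := le_antisymm hk1 hk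
      subst hk2
      have φ' : L ≃* S := φ.trans (MulEquiv.funUnique (Fin 1) S)
      obtain ⟨A, _, _, S', γ, hd⟩ := S1A e Y S hone L hL ⟨φ'⟩
      have hker : SerK (PP e) (FewK e) γ.ker :=
        SNNk _ _ (cla_PP e) (cla_few e) Y γ.ker inferInstance ⟨len, N, hser⟩
      have hlt : Nat.card γ.ker < Nat.card Y := by
        apply lt_of_le_of_ne (Subgroup.card_le_card_group _)
        intro h0
        have h1 : γ.ker = ⊤ := Subgroup.eq_top_of_card_eq _ h0
        have h2 := hd.inf
        rw [h1, inf_top_eq] at h2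
        exact hL1 h2
      have hK : CA e γ.ker := ih _ (hn ▸ hlt) _ rfl hker
      intro Γ _ _ Z h hC
      by_cases hLr : L ≤ h.range
      · by_cases hsur : Function.Surjective (γ.comp h)
        · rcases hd.al.idx with h1 | h1
          · refine S1E e he Y A hs L S' γ hd hK Γ Z h hC hLr ?_
            rw [Subgroup.index_eq_one.1 h1]
            exact MonoidHom.range_eq_top.2 hsur
          · exact S1F e he Y A hs L S' γ hd h1 hK hQ Γ Z h hC hLr hsur
        · refine S1E e he Y A hs L S' γ hd hK Γ Z h hC hLr ?_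
          have hle : S' ≤ (γ.comp h).range := by
            rw [← hd.map]
            rintro _ ⟨l, hl, rfl⟩
            obtain ⟨x, rfl⟩ := hLr hl
            exact ⟨x, rfl⟩
          have hne : (γ.comp h).range.index ≠ 1 := by
            rw [Ne, Subgroup.index_eq_one]
            intro h2
            exact hsur (MonoidHom.range_eq_top.1 h2)
          have hmul := Subgroup.relIndex_mul_index hle
          rcases hd.al.idx with h1 | h1
          · rw [h1] at hmul
            exact absurd (Nat.eq_one_of_mul_eq_one_left hmul) hne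
          · have hdv : (γ.comp h).range.index ∣ S'.index := Dvd.intro_left _ hmul
            rcases (Nat.dvd_prime h1).1 hdv with h2 | h2
            · exact absurd h2 hne
            · rw [h2] at hmul
              have h3 : S'.relIndex (γ.comp h).range = 1 :=
                Nat.eq_of_mul_eq_mul_right h1.pos (by rw [hmul, one_mul])
              exact le_antisymm (Subgroup.relIndex_eq_one.1 h3) hle
      · exact S1C e he Y S hs L hone ⟨φ'⟩ hQ Γ Z h hC hLr
  intro Y _ _ hser
  exact key _ Y rfl hser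

/-- the theorem on the Fitting subgroup for groups with a series -/
theorem serk_thm (SQNk : T_SQNk) (SLNk : T_SLNk) (MAk : T_MAk) (FIN : T_FIN) (e : ℝ)
    (he : 91 / 25 ≤ e) (G : Type) [Group G] [Finite G] (hG : SerK (PP e) (FewK e) G) :
    ∃ θ ∈ Irr (fit G), θ 1 = 1 ∧ ((fit G).index : ℝ) ≤ acd (fit G) θ ^ e := by
  obtain ⟨len, N, hser⟩ := hG
  exact FIN e he G (MAk e (by linarith) _
    (SQNk _ _ (cla_PP e) G len N hser (sol G) (SLNk _ _ (cla_few e) G len N hser)))

/-- monotonicity in the conditions -/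
theorem serk_mono {P P' Q Q' : ℕ → (S : Type) → [Group S] → Prop}
    (h : ∀ (k : ℕ) (S : Type) [Group S] [Finite S], P k S → P' k S)
    (h' : ∀ (k : ℕ) (S : Type) [Group S], Q k S → Q' k S)
    (G : Type) [Group G] (hG : SerK P Q G) : SerK P' Q' G := by
  obtain ⟨n, N, hs⟩ := hG
  refine ⟨n, N, hs.bot, hs.nor, hs.mono, fun i hi => ?_, ?_⟩
  · obtain ⟨R, _, f, a, b, c⟩ := hs.fac i hi
    refine ⟨R, _, f, a, b, ?_⟩
    rcases c with c | ⟨k, S, _, _, d1, d2⟩
    · exact Or.inl c
    · exact Or.inr ⟨k, S, _, inferInstance, h k S d1, d2⟩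
  · obtain ⟨Y, _, f, a, b, c⟩ := hs.top
    refine ⟨Y, _, f, a, b, fun L hL => ?_⟩
    obtain ⟨k, S, _, _, d1, d2⟩ := c L hL
    exact ⟨k, S, _, inferInstance, h' k S d1, d2⟩

/-- the former class -/
theorem ser_serk {P Q : ℕ → (S : Type) → [Group S] → Prop} (G : Type) [Group G]
    (hG : Ser P G) : SerK P Q G := by
  obtain ⟨n, N, h0, h1, h2, h3, h4⟩ := hG
  refine ⟨n, N, h0, h2, h3, h4, ?_⟩
  refine ⟨Unit, inferInstance, 1, fun _ => ⟨1, rfl⟩, fun x => ?_, fun L hL => ?_⟩
  · rw [h1]
    simp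
  · exact absurd (Subsingleton.elim _ _) hL.ne

/-- the reduction to `G / Sol(G)` -/
theorem rk_thm2 (SQ : T_SQ) (KRN : T_KRN) (TRD : T_TRD)
    (CIS : T_CIS) (FIN : T_FIN) (e : ℝ) (he : 91 / 25 ≤ e) (Y : Type) [Group Y] [Finite Y]
    (hs : sol Y = ⊥) (H : CEN e Y)
    (G : Type) [Group G] [Finite G] (f : G →* Y) (hf : Function.Surjective f)
    (hk : Group.IsSolvable f.ker) :
    ∃ θ ∈ Irr (fit G), θ 1 = 1 ∧ ((fit G).index : ℝ) ≤ acd (fit G) θ ^ e := by
  have hY : CA e Y := KRN e Y (TRD e Y hs H)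
  apply FIN e he G
  have h1 : sol G = f.ker := by
    have h2 := (SQ G Y f hf hk).2
    rw [hs] at h2
    rw [← h2]
    rfl
  have h3 : Nonempty (Y ≃* G ⧸ sol G) := by
    refine ⟨MulEquiv.symm ?_⟩
    exact (QuotientGroup.quotientMulEquivOfEq h1).trans
      (QuotientGroup.quotientKerEquivOfSurjective f hf)
  exact CIS e Y _ h3 hY

/-- the average degree over an invariant character, from the claim -/
theorem inv_ca (KKP : T_KKP) (BRG : T_BRG) (e : ℝ)
    (G : Type) [Group G] [Finite G] (N : Subgroup G) (θ : N → ℂ) (hθ : θ ∈ Irr N)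
    (hinv : ∀ g : G, ∀ a b : N, (b : G) = g * a * g⁻¹ → θ b = θ a)
    (Y : Type) [Group Y] [Finite Y] (q : G →* Y) (hY : CA e Y)
    (hq : Function.Surjective q) (hker : q.ker = N) :
    (θ 1).re * ((sol Y).index : ℝ) ^ (1 / e) ≤ acd N θ := by
  have := Fintype.ofFinite G
  have hN : N.Normal := by rw [← hker]; infer_instance
  obtain ⟨hS, hacd⟩ := BRG G N θ hθ
  have hv : ∀ a : N, ext0 N θ a = θ a := by
    intro a
    rw [ext0, dif_pos a.2]
  have hC := hY G N ⊤ (nin_of_normal hN) (ext0 N θ) hS (by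
    intro g _
    funext x
    simp only [cj]
    by_cases hx : x ∈ N
    · have h1 := hinv g ⟨x, hx⟩ ⟨g * x * g⁻¹, hN.conj_mem x hx g⟩ rfl
      have h2 := hv ⟨x, hx⟩
      have h3 := hv ⟨g * x * g⁻¹, hN.conj_mem x hx g⟩
      simp only at h2 h3
      rw [h2, h3, h1]
    · rw [ext0, ext0, dif_neg hx, dif_neg]
      intro h1
      apply hx
      have h2 := hN.conj_mem _ h1 g⁻¹
      have h3 : g⁻¹ * (g * x * g⁻¹) * g⁻¹⁻¹ = x := by group
      rwa [h3] at h2) (q.comp (⊤ : Subgroup G).subtype) (by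
    intro x hx
    rw [← hker] at hx
    exact hx)
  have hr : (q.comp (⊤ : Subgroup G).subtype).range.index = 1 := by
    rw [Subgroup.index_eq_one, MonoidHom.range_eq_top]
    intro y
    obtain ⟨x, rfl⟩ := hq y
    exact ⟨⟨x, trivial⟩, rfl⟩
  rw [hr, Nat.cast_one, one_mul] at hC
  obtain ⟨-, k1, -⟩ := KKP G N ⊤ le_top _ hS
  have k2 : (0 : ℝ) < kk ⊤ (ext0 N θ) := by exact_mod_cast k1
  have h1 : (ext0 N θ 1).re = (θ 1).re := by
    have := hv 1
    rw [OneMemClass.coe_one] at this
    rw [this]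
  rw [h1, ← hacd] at hC
  have h2 : (θ 1).re * ((sol Y).index : ℝ) ^ (1 / e) * kk ⊤ (ext0 N θ) ≤
      acd N θ * kk ⊤ (ext0 N θ) := by
    calc _ = ((sol Y).index : ℝ) ^ (1 / e) * (θ 1).re * kk ⊤ (ext0 N θ) := by ring
      _ ≤ _ := hC
  exact le_of_mul_le_mul_right h2 k2

end FI
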