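import Pool.Agent.H6.FN.Targets
import Pool.Agent.H6.FC.Lem

/-!
# MP_7500ea_al, board fcn_modules, rows CNK, CNC
-/

open scoped Classical ComplexConjugate

namespace Pool.Agent.H6.FN

open _root_.FI AMc AMt

theorem pf_CNK (KCN : T_KCN) (SSQ : T_SSQ) (KKP : T_KKP) : T_CNK := by
  intro e he Y _ _ hK Γ _ _ Z h hC ν hν
  obtain ⟨hfin, hpos, hkd⟩ := KKP Γ Z ⊤ le_top ν hν
  set T := h.range with hT
  have hy0 : (0 : ℝ) < (Nat.card Y : ℝ) := by exact_mod_cast Nat.card_pos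
  have hT0 : (0 : ℝ) < (Nat.card T : ℝ) := by exact_mod_cast Nat.card_pos
  have hi0 : (0 : ℝ) < (T.index : ℝ) := by
    exact_mod_cast Nat.pos_of_ne_zero Subgroup.index_ne_zero_of_finite
  have hmul : (Nat.card T : ℝ) * (T.index : ℝ) = (Nat.card Y : ℝ) := by
    exact_mod_cast Subgroup.card_mul_index T
  have hk0 : (0 : ℝ) ≤ (kk ⊤ ν : ℝ) := Nat.cast_nonneg _
  by_cases hcase : (T.index : ℝ) < (Nat.card Y : ℝ) ^ (1 / e)
  swap
  · rw [not_lt] at hcase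
    exact mul_le_mul hcase hkd hk0 hi0.le
  -- the number of characters
  have hkc : (kk ⊤ ν : ℝ) ≤ (kc T : ℝ) := by
    have h1 := KCN Γ Z ⊤ le_top (fun z hz g _ => hC.cen z hz g) T
      (h.rangeRestrict.comp (⊤ : Subgroup Γ).subtype) (by
        intro y
        obtain ⟨x, hx⟩ := h.rangeRestrict_surjective y
        exact ⟨⟨x, trivial⟩, hx⟩) (by
        intro x
        rw [← hC.ker]
        constructor
        · intro hx
          exact congrArg Subtype.val hx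
        · intro hx
          exact Subtype.ext hx) ν hν
    exact_mod_cast h1
  have hkT := hK T hcase
  -- the sum of the squares
  have hrel : Z.relIndex ⊤ = Nat.card T := by
    rw [Subgroup.relIndex_top_right]
    have : Z = h.ker := by
      ext x
      rw [MonoidHom.mem_ker, hC.ker]
    rw [this, Subgroup.index_ker]
  have hsq := SSQ Γ Z ⊤ le_top (fun z hz g _ => hC.cen z hz g) ν hν
  rw [hrel] at hsq
  have hreal : ∀ χ ∈ Ab (⊤ : Subgroup Γ) ν, χ 1 = (((χ 1).re : ℝ) : ℂ) ∧ 0 ≤ (χ 1).re := by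
    intro χ hχ
    obtain ⟨-, -, ⟨d, hd, hd2⟩, -⟩ := _root_.FI.Lib.lS1 Γ ⊤ χ hχ.1
    rw [hd2]
    constructor
    · simp
    · rw [Complex.natCast_re]
      positivity
  have h1 : dd ⊤ ν = ∑ χ ∈ hfin.toFinset, (χ 1).re :=
    finsum_mem_eq_finite_toFinset_sum _ hfin
  have h2 : ∑ χ ∈ hfin.toFinset, (χ 1).re ^ 2 = (Nat.card T : ℝ) := by
    have h3 : ∑ᶠ χ ∈ Ab ⊤ ν, χ 1 * χ 1 = ∑ χ ∈ hfin.toFinset, χ 1 * χ 1 :=
      finsum_mem_eq_finite_toFinset_sum _ hfin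
    rw [h3] at hsq
    have h4 : ∑ χ ∈ hfin.toFinset, χ 1 * χ 1 =
        ((∑ χ ∈ hfin.toFinset, (χ 1).re ^ 2 : ℝ) : ℂ) := by
      push_cast
      apply Finset.sum_congr rfl
      intro χ hχ
      have := (hreal χ ((Set.Finite.mem_toFinset hfin).1 hχ)).1
      conv_lhs => rw [this]
      ring
    rw [h4] at hsq
    exact_mod_cast hsq
  have h5 : (Nat.card T : ℝ) ≤ dd ⊤ ν ^ 2 := by
    rw [h1, ← h2]
    exact Finset.sum_sq_le_sq_sum_of_nonneg (fun χ hχ => (hreal χ ((Set.Finite.mem_toFinset hfin).1 hχ)).2)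
  have hdd0 : 0 ≤ dd ⊤ ν := hk0.trans hkd
  have h6 : (Nat.card T : ℝ) ^ ((1 : ℝ) / 2) ≤ dd ⊤ ν := by
    rw [← Real.sqrt_eq_rpow]
    exact Real.sqrt_le_iff.2 ⟨hdd0, h5⟩
  have h7 : (Nat.card Y : ℝ) ^ (1 / e) * (kk ⊤ ν : ℝ) ≤
      (Nat.card Y : ℝ) ^ (1 / e) * ((Nat.card Y : ℝ) ^ (1 / 2 - 1 / e) *
        (T.index : ℝ) ^ ((1 : ℝ) / 2)) :=
    mul_le_mul_of_nonneg_left (hkc.trans hkT) (Real.rpow_nonneg hy0.le _)
  refine h7.trans ?_
  have h8 : (Nat.card Y : ℝ) ^ (1 / e) * ((Nat.card Y : ℝ) ^ (1 / 2 - 1 / e) *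
        (T.index : ℝ) ^ ((1 : ℝ) / 2)) = (T.index : ℝ) * (Nat.card T : ℝ) ^ ((1 : ℝ) / 2) := by
    rw [← mul_assoc, ← Real.rpow_add hy0]
    have h9 : 1 / e + (1 / 2 - 1 / e) = (1 : ℝ) / 2 := by ring
    rw [h9, ← hmul, Real.mul_rpow hT0.le hi0.le, mul_assoc, ← Real.rpow_add hi0]
    have h10 : (1 : ℝ) / 2 + 1 / 2 = 1 := by norm_num
    rw [h10, Real.rpow_one, mul_comm]
  rw [h8]
  exact mul_le_mul_of_nonneg_left h6 hi0.le

theorem pf_CNC (KSB : T_KSB) : T_CNC := by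
  intro e he Y _ _ hY T hT
  have hy1 : (1 : ℝ) ≤ (Nat.card Y : ℝ) := by exact_mod_cast Nat.card_pos
  have hy0 : (0 : ℝ) < (Nat.card Y : ℝ) := by linarith
  have hi0 : (0 : ℝ) < (T.index : ℝ) := by
    exact_mod_cast Nat.pos_of_ne_zero Subgroup.index_ne_zero_of_finite
  have h1 : (kc T : ℝ) ≤ (T.index : ℝ) * (kc Y : ℝ) := by exact_mod_cast KSB Y T
  have h2 : (T.index : ℝ) * (kc Y : ℝ) ≤
      (T.index : ℝ) * (Nat.card Y : ℝ) ^ (1 / 2 - 3 / (2 * e)) :=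
    mul_le_mul_of_nonneg_left hY hi0.le
  have h3 : (T.index : ℝ) ^ ((1 : ℝ) / 2) ≤ (Nat.card Y : ℝ) ^ (1 / (2 * e)) := by
    have h4 := Real.rpow_le_rpow hi0.le hT.le (by norm_num : (0 : ℝ) ≤ 1 / 2)
    rw [← Real.rpow_mul hy0.le] at h4
    have h5 : 1 / e * (1 / 2) = 1 / (2 * e) := by
      field_simp
    rwa [h5] at h4
  have h6 : (T.index : ℝ) = (T.index : ℝ) ^ ((1 : ℝ) / 2) * (T.index : ℝ) ^ ((1 : ℝ) / 2) := by
    rw [← Real.rpow_add hi0]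
    norm_num
  calc (kc T : ℝ) ≤ (T.index : ℝ) * (Nat.card Y : ℝ) ^ (1 / 2 - 3 / (2 * e)) := h1.trans h2
    _ = (T.index : ℝ) ^ ((1 : ℝ) / 2) * (T.index : ℝ) ^ ((1 : ℝ) / 2) *
          (Nat.card Y : ℝ) ^ (1 / 2 - 3 / (2 * e)) := by rw [← h6]
    _ ≤ (T.index : ℝ) ^ ((1 : ℝ) / 2) * (Nat.card Y : ℝ) ^ (1 / (2 * e)) *
          (Nat.card Y : ℝ) ^ (1 / 2 - 3 / (2 * e)) := by
        apply mul_le_mul_of_nonneg_right _ (Real.rpow_nonneg hy0.le _)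
        exact mul_le_mul_of_nonneg_left h3 (Real.rpow_nonneg hi0.le _)
    _ = (T.index : ℝ) ^ ((1 : ℝ) / 2) * ((Nat.card Y : ℝ) ^ (1 / (2 * e)) *
          (Nat.card Y : ℝ) ^ (1 / 2 - 3 / (2 * e))) := by ring
    _ = (Nat.card Y : ℝ) ^ (1 / 2 - 1 / e) * (T.index : ℝ) ^ ((1 : ℝ) / 2) := by
        rw [← Real.rpow_add hy0]
        have h7 : 1 / (2 * e) + (1 / 2 - 3 / (2 * e)) = 1 / 2 - 1 / e := by
          field_simp
          ring
        rw [h7, mul_comm]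

end Pool.Agent.H6.FN
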