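import Pool.Agent.H6.FN.Targets2
import Pool.Agent.H6.FC.Lem

/-!
# MP_7500ea_al, board fcn_modules, second wave: rows SQNk TPIk SNNk TPNk TKQk SLNk MLNk TKYk
(adapted from the rows of helper45, helper36, helper19)
-/

set_option autoImplicit false

open scoped Classical ComplexConjugate

namespace Pool.Agent.H6.FN.K

open _root_.FI AMc AMt


theorem nas_nc' {S : Type} [Group S] (hS : NAS S) : ∀ x : S, (∀ s, s * x = x * s) → x = 1 := by
  intro x hcon
  have := hS.sim
  have h1 : Subgroup.center S = ⊥ ∨ Subgroup.center S = ⊤ :=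
    Subgroup.Normal.eq_bot_or_eq_top (inferInstance : (Subgroup.center S).Normal)
  rcases h1 with h1 | h1
  · have h2 : x ∈ Subgroup.center S := Subgroup.mem_center_iff.2 (fun s => hcon s)
    rwa [h1, Subgroup.mem_bot] at h2
  · exfalso
    obtain ⟨a, b, hab⟩ := hS.nab
    have h2 : b ∈ Subgroup.center S := by rw [h1]; trivial
    exact hab (Subgroup.mem_center_iff.1 h2 a)

/-- the centre of `S ^ k` is trivial -/
theorem cen_pow {S : Type} [Group S] (hS : NAS S) {k : ℕ} {L : Type} [Group L]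
    (e : L ≃* (Fin k → S)) (x : L) (h : ∀ l : L, l * x = x * l) : x = 1 := by
  apply e.injective
  rw [map_one]
  funext i
  refine nas_nc' hS _ (fun s => ?_)
  have h1 := congrArg e (h (e.symm (Pi.mulSingle i s)))
  rw [map_mul, map_mul, MulEquiv.apply_symm_apply] at h1
  have h2 := congrFun h1 i
  simpa using h2

theorem exists_min {Y : Type} [Group Y] [Finite Y] (U : Subgroup Y) (hU : U ≠ ⊥)
    (hn : U.Normal) : ∃ L : Subgroup Y, MinNk L ∧ L ≤ U := by
  obtain ⟨L, ⟨hL1, hL2, hL3⟩, hmin⟩ := (wellFounded_lt (α := Subgroup Y)).has_min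
    {L : Subgroup Y | L.Normal ∧ L ≠ ⊥ ∧ L ≤ U} ⟨U, hn, hU, le_rfl⟩
  refine ⟨L, ⟨hL1, hL2, fun M hM hML => ?_⟩, hL3⟩
  by_cases hM0 : M = ⊥
  · exact Or.inl hM0
  · right
    by_contra hne
    exact hmin M ⟨hM, hM0, hML.trans hL3⟩ (lt_of_le_of_ne hML hne)

theorem pf_TPNk (NSQ : T_NSQ) : T_TPNk := by
  intro Q hQ Y _ _ hTop H hH M hM
  obtain ⟨hMn, hM0, hMmin⟩ := hM
  let U : Subgroup Y := Subgroup.normalClosure ((M.map H.subtype : Subgroup Y) : Set Y)
  have hM1U : M.map H.subtype ≤ U := Subgroup.subset_normalClosure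
  have hUH : U ≤ H := by
    have := hH
    apply Subgroup.normalClosure_le_normal
    rintro _ ⟨x, _, rfl⟩
    exact x.2
  have hU0 : U ≠ ⊥ := by
    intro h
    rw [h, le_bot_iff, Subgroup.map_eq_bot_iff_of_injective M Subtype.val_injective] at hM1U
    exact hM0 hM1U
  obtain ⟨L, hL, hLU⟩ := exists_min U hU0 Subgroup.normalClosure_normal
  obtain ⟨k, S, instS, finS, hQS, ⟨e⟩⟩ := hTop L hL
  have hS := hQ.nas k S hQS
  have hLH : L ≤ H := hLU.trans hUH
  have := hL.nor
  have := hMn
  have hLHn : (L.subgroupOf H).Normal := Subgroup.normal_subgroupOf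
  have hDn : (L.subgroupOf H ⊓ M).Normal := inferInstance
  rcases hMmin _ hDn inf_le_right with hD | hD
  · exfalso
    -- `L` and `M` commute
    have hcom : ∀ l ∈ L, ∀ m : H, m ∈ M → (m : Y) * l = l * m := by
      intro l hl m hm
      let l' : H := ⟨l, hLH hl⟩
      have h1 : l' * m * l'⁻¹ * m⁻¹ ∈ L.subgroupOf H ⊓ M := by
        constructor
        · change (l * m * l⁻¹ * (m : Y)⁻¹) ∈ L
          have h2 : l * m * l⁻¹ * (m : Y)⁻¹ = l * ((m : Y) * l⁻¹ * (m : Y)⁻¹) := by group
          rw [h2]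
          exact L.mul_mem hl (hL.nor.conj_mem _ (L.inv_mem hl) _)
        · exact M.mul_mem (hMn.conj_mem m hm l') (M.inv_mem hm)
      rw [hD, Subgroup.mem_bot] at h1
      have h2 : l * m * l⁻¹ * (m : Y)⁻¹ = 1 := congrArg Subtype.val h1
      rw [mul_inv_eq_one, mul_inv_eq_iff_eq_mul] at h2
      exact h2.symm
    have hUc : U ≤ Subgroup.centralizer (L : Set Y) := by
      apply Subgroup.normalClosure_le_normal
      rintro _ ⟨m, hm, rfl⟩
      change (m : Y) ∈ Subgroup.centralizer (L : Set Y)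
      rw [Subgroup.mem_centralizer_iff]
      intro l hl
      exact (hcom l hl m hm).symm
    apply hL.ne
    rw [Subgroup.eq_bot_iff_forall]
    intro x hx
    have h3 : (⟨x, hx⟩ : L) = 1 := by
      apply cen_pow hS e
      intro l
      have h4 := Subgroup.mem_centralizer_iff.1 (hUc (hLU hx)) (l : Y) l.2
      exact Subtype.ext h4
    exact congrArg Subtype.val h3
  · have hML : ∀ m : H, m ∈ M → (m : Y) ∈ L := by
      intro m hm
      rw [← hD] at hm
      exact hm.1
    let j : M →* L :=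
      { toFun := fun m => ⟨((m : H) : Y), hML m m.2⟩
        map_one' := rfl
        map_mul' := fun a b => rfl }
    have hj : ∀ m, ((j m : L) : Y) = ((m : H) : Y) := fun m => rfl
    have hji : Function.Injective j := by
      intro a b hab
      have h1 := congrArg (Subtype.val) hab
      rw [hj, hj] at h1
      exact Subtype.ext (Subtype.ext h1)
    have hjn : j.range.Normal := by
      constructor
      rintro _ ⟨m, rfl⟩ l
      let l' : H := ⟨l, hLH l.2⟩
      refine ⟨⟨l' * (m : H) * l'⁻¹, hMn.conj_mem _ m.2 l'⟩, ?_⟩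
      apply Subtype.ext
      rfl
    obtain ⟨k', hk', hiso⟩ := (NSQ S hS k L ⟨e⟩).1 M j hji hjn
    exact ⟨k', S, instS, finS, hQ.mon k k' S hk' hQS, hiso⟩

theorem pf_TKQk (TKF : T_TKFk) : T_TKQk := by
  intro e he Y _ _ L hL k S _ _ hFew hiso
  obtain ⟨φ⟩ := hiso
  have hS : NAS S := ⟨hFew.sim, hFew.nab⟩
  let C : Subgroup Y := Subgroup.centralizer (L : Set Y)
  have hLC : ∀ x ∈ L, x ∈ C → x = 1 := by
    intro x hx hxC
    have h3 : (⟨x, hx⟩ : L) = 1 := by
      apply cen_pow hS φ
      intro l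
      have h4 := Subgroup.mem_centralizer_iff.1 hxC (l : Y) l.2
      exact Subtype.ext h4
    exact congrArg Subtype.val h3
  let p : L →* L.map (QuotientGroup.mk' C) := (QuotientGroup.mk' C).subgroupMap L
  have hp : Function.Bijective p := by
    refine ⟨?_, MonoidHom.subgroupMap_surjective _ _⟩
    rw [injective_iff_map_eq_one]
    intro x hx
    have h1 : (QuotientGroup.mk (x : Y) : Y ⧸ C) = 1 := congrArg Subtype.val hx
    rw [QuotientGroup.eq_one_iff] at h1
    exact Subtype.ext (hLC x x.2 h1)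
  have h1 := TKF e he (Y ⧸ C) (L.map (QuotientGroup.mk' C))
    (hL.map _ (QuotientGroup.mk'_surjective C)) k S hFew
    ⟨(MulEquiv.ofBijective p hp).symm.trans φ⟩ (by
      intro y hy
      obtain ⟨y, rfl⟩ := QuotientGroup.mk_surjective y
      rw [QuotientGroup.eq_one_iff]
      change y ∈ Subgroup.centralizer (L : Set Y)
      rw [Subgroup.mem_centralizer_iff]
      intro l hl
      have h2 := hy (QuotientGroup.mk l) ⟨l, hl, rfl⟩
      have h3 : (QuotientGroup.mk (y * l) : Y ⧸ C) = QuotientGroup.mk (l * y) := h2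
      rw [QuotientGroup.eq] at h3
      have h4 : (y * l)⁻¹ * (l * y) ∈ L := by
        have h5 : (y * l)⁻¹ * (l * y) = l⁻¹ * (y⁻¹ * l * y) := by group
        rw [h5]
        refine L.mul_mem (L.inv_mem hl) ?_
        have h6 := hL.conj_mem l hl y⁻¹
        rwa [inv_inv] at h6
      have h5 := hLC _ h4 h3
      rw [inv_mul_eq_one] at h5
      exact h5.symm)
  exact h1



theorem pf_SQNk (NSQ : T_NSQ) : T_SQNk := by
  intro P Q hP G _ _ n N hSer M instM hM
  have hnor : ∀ i, ((N i).map (QuotientGroup.mk' M)).Normal := fun i =>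
    (hSer.nor i).map _ (QuotientGroup.mk'_surjective M)
  refine ⟨n, fun i => (N i).map (QuotientGroup.mk' M), ⟨?_, hnor, ?_, ?_, ?_⟩⟩
  · change (N 0).map (QuotientGroup.mk' M) = ⊥
    rw [hSer.bot, Subgroup.map_bot]
  · intro i
    exact Subgroup.map_mono (hSer.mono i)
  · intro i hi
    obtain ⟨R, instR, f, hf, hker, hR⟩ := hSer.fac i hi
    have := hnor i
    have hn2 : (((N i).map (QuotientGroup.mk' M)).subgroupOf
      ((N (i + 1)).map (QuotientGroup.mk' M))).Normal := Subgroup.normal_subgroupOf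
    let R' := ((N (i + 1)).map (QuotientGroup.mk' M)) ⧸ (((N i).map (QuotientGroup.mk' M)).subgroupOf
      ((N (i + 1)).map (QuotientGroup.mk' M)))
    let p : ((N (i + 1)).map (QuotientGroup.mk' M)) →* R' := QuotientGroup.mk' _
    have hp : Function.Surjective p := QuotientGroup.mk'_surjective _
    have hpk : ∀ x, p x = 1 ↔ (x : G ⧸ M) ∈ (N i).map (QuotientGroup.mk' M) := by
      intro x
      rw [← Subgroup.mem_subgroupOf]
      exact QuotientGroup.eq_one_iff x
    let g : N (i + 1) →* R' := p.comp ((QuotientGroup.mk' M).subgroupMap (N (i + 1)))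
    have hg : Function.Surjective g := hp.comp (MonoidHom.subgroupMap_surjective _ _)
    have hfg : f.ker ≤ g.ker := by
      intro x hx
      rw [MonoidHom.mem_ker] at hx ⊢
      have h1 : (x : G) ∈ N i := (hker x).1 hx
      exact (hpk _).2 ⟨(x : G), h1, rfl⟩
    let g' : R →* R' := f.liftOfSurjective hf ⟨g, hfg⟩
    have hg' : ∀ x, g' (f x) = g x := fun x =>
      MonoidHom.liftOfRightInverse_comp_apply f _ _ ⟨g, hfg⟩ x
    have hg's : Function.Surjective g' := by
      intro y
      obtain ⟨x, hx⟩ := hg y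
      exact ⟨f x, (hg' x).trans hx⟩
    refine ⟨R', inferInstance, p, hp, hpk, ?_⟩
    rcases hR with hR | ⟨k, S, instS, finS, hPk, hR⟩
    · left
      have := hR
      exact Group.isSolvable_of_surjective hg's
    · right
      obtain ⟨k', hk', hiso⟩ := (NSQ S (hP.nas k S hPk) k R hR).2 R' g' hg's
      exact ⟨k', S, instS, finS, hP.mon k k' S hk' hPk, hiso⟩
  · obtain ⟨Y, instY, f, hf, hker, htop⟩ := hSer.top
    let f' : G ⧸ M →* Y := QuotientGroup.lift M f (fun x hx => (hker x).2 (hM hx))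
    have hf' : ∀ x : G, f' (QuotientGroup.mk x) = f x := fun x => rfl
    refine ⟨Y, instY, f', ?_, ?_, htop⟩
    · intro y
      obtain ⟨x, hx⟩ := hf y
      exact ⟨QuotientGroup.mk x, (hf' x).trans hx⟩
    · intro q
      obtain ⟨x, rfl⟩ := QuotientGroup.mk_surjective q
      rw [hf', hker]
      constructor
      · intro h
        exact ⟨x, h, rfl⟩
      · rintro ⟨y, hy, hyx⟩
        have h1 : (QuotientGroup.mk y : G ⧸ M) = QuotientGroup.mk x := hyx
        rw [QuotientGroup.eq] at h1
        have h2 := (N n).mul_mem hy (hM h1)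
        rwa [mul_inv_cancel_left] at h2

theorem pf_TPIk : T_TPIk := by
  intro Q Y Y' _ _ hiso hTop L' hL'
  obtain ⟨f⟩ := hiso
  have hfs : Function.Surjective (f : Y →* Y') := f.surjective
  have hfi : Function.Injective (f : Y →* Y') := f.injective
  have hmin : MinNk (L'.comap (f : Y →* Y')) := by
    refine ⟨hL'.nor.comap _, ?_, ?_⟩
    · intro h
      apply hL'.ne
      rw [← Subgroup.map_comap_eq_self_of_surjective hfs L', h, Subgroup.map_bot]
    · intro M hM hML
      have h1 : M.map (f : Y →* Y') ≤ L' := Subgroup.map_le_iff_le_comap.2 hML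
      rcases hL'.min _ (hM.map _ hfs) h1 with h | h
      · left
        exact (Subgroup.map_eq_bot_iff_of_injective M hfi).1 h
      · right
        rw [← h, Subgroup.comap_map_eq_self_of_injective hfi]
  obtain ⟨k, S, instS, finS, hQ, ⟨e⟩⟩ := hTop _ hmin
  refine ⟨k, S, instS, finS, hQ, ⟨?_⟩⟩
  have h2 : (L'.comap (f : Y →* Y')).map (f : Y →* Y') = L' :=
    Subgroup.map_comap_eq_self_of_surjective hfs L'
  exact ((MulEquiv.subgroupCongr h2).symm.trans (f.subgroupMap _).symm).trans e

theorem pf_SNNk (NSQ : T_NSQ) (TPN : T_TPNk) : T_SNNk := by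
  intro P Q hP hQ G _ _ H hH hSer
  obtain ⟨n, N, hN⟩ := hSer
  refine ⟨n, fun i => (N i).subgroupOf H, ⟨?_, ?_, ?_, ?_, ?_⟩⟩
  · change (N 0).subgroupOf H = ⊥
    rw [hN.bot, Subgroup.bot_subgroupOf]
  · intro i
    have := hN.nor i
    exact Subgroup.normal_subgroupOf
  · intro i
    exact Subgroup.comap_mono (hN.mono i)
  · intro i hi
    obtain ⟨R, instR, f, hf, hker, hR⟩ := hN.fac i hi
    let f1 : ((N (i + 1)).subgroupOf H) →* R :=
      { toFun := fun x => f ⟨((x : H) : G), x.2⟩
        map_one' := by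
          have : (⟨(((1 : (N (i + 1)).subgroupOf H) : H) : G), Subgroup.one_mem _⟩ : N (i + 1)) = 1 :=
            rfl
          exact (congrArg f this).trans (map_one f)
        map_mul' := by
          intro a b
          rw [← map_mul]
          rfl }
    have hf1 : ∀ x, f1 x = f ⟨((x : H) : G), x.2⟩ := fun x => rfl
    have hnor : f1.range.Normal := by
      constructor
      rintro _ ⟨x, rfl⟩ q
      obtain ⟨y, rfl⟩ := hf q
      have hmem : (y : G) * ((x : H) : G) * (y : G)⁻¹ ∈ H := hH.conj_mem _ (x : H).2 _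
      have hmem2 : (y : G) * ((x : H) : G) * (y : G)⁻¹ ∈ N (i + 1) :=
        (N (i + 1)).mul_mem ((N (i + 1)).mul_mem y.2 x.2) ((N (i + 1)).inv_mem y.2)
      refine ⟨⟨⟨_, hmem⟩, hmem2⟩, ?_⟩
      rw [hf1, hf1, ← map_mul, ← map_inv, ← map_mul]
      rfl
    refine ⟨f1.range, inferInstance, f1.rangeRestrict, f1.rangeRestrict_surjective, ?_, ?_⟩
    · intro x
      have h1 : f1.rangeRestrict x = 1 ↔ f1 x = 1 := by
        rw [Subtype.ext_iff]
        rfl
      rw [h1, hf1, hker]
      rfl
    · rcases hR with hR | ⟨k, S, instS, finS, hPk, hR⟩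
      · left
        have := hR
        infer_instance
      · right
        obtain ⟨k', hk', hiso⟩ := (NSQ S (hP.nas k S hPk) k R hR).1 f1.range f1.range.subtype
          Subtype.val_injective (by rw [Subgroup.range_subtype]; exact hnor)
        exact ⟨k', S, instS, finS, hP.mon k k' S hk' hPk, hiso⟩
  · obtain ⟨Y, instY, f, hf, hker, htop⟩ := hN.top
    have : Finite Y := Finite.of_surjective f hf
    refine ⟨H.map f, inferInstance, f.subgroupMap H, MonoidHom.subgroupMap_surjective _ _, ?_,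
      TPN Q hQ Y htop (H.map f) (hH.map f hf)⟩
    intro x
    have h1 : f.subgroupMap H x = 1 ↔ f (x : G) = 1 := by
      rw [Subtype.ext_iff]
      rfl
    rw [h1, hker]
    rfl



/-- a minimal normal subgroup inside a nontrivial normal subgroup -/
theorem exists_minN {Y : Type} [Group Y] [Finite Y] (V : Subgroup Y) (hV : V.Normal)
    (hne : V ≠ ⊥) : ∃ L : Subgroup Y, MinNk L ∧ L ≤ V := by
  obtain ⟨L, ⟨hL1, hL2, hL3⟩, hmin⟩ := (wellFounded_lt (α := Subgroup Y)).has_min
    {M : Subgroup Y | M.Normal ∧ M ≤ V ∧ M ≠ ⊥} ⟨V, hV, le_refl _, hne⟩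
  refine ⟨L, ⟨hL1, hL3, ?_⟩, hL2⟩
  intro M hM hML
  by_contra hcon
  rw [not_or] at hcon
  exact hmin M ⟨hM, hML.trans hL2, hcon.1⟩ (lt_of_le_of_ne hML hcon.2)

theorem pf_SLNk (SOL : T_SOL) : T_SLNk := by
  intro P Q hQ G _ _ n N h
  obtain ⟨Y, _, f, hf, hker, hTop⟩ := h.top
  have hY : Finite Y := Finite.of_surjective f hf
  have hs : Group.IsSolvable (sol G) := (SOL G).1
  have hVn : ((sol G).map f).Normal := Subgroup.Normal.map (sol_normal G) f hf
  have hVs : Group.IsSolvable ((sol G).map f) :=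
    Group.isSolvable_of_surjective (f := f.subgroupMap (sol G)) (f.subgroupMap_surjective (sol G))
  have hbot : (sol G).map f = ⊥ := by
    by_contra hne
    obtain ⟨L, hL, hLV⟩ := exists_minN _ hVn hne
    obtain ⟨k, S, _, _, hS, ⟨φ⟩⟩ := hTop L hL
    have hLs : Group.IsSolvable L :=
      Group.isSolvable_of_isSolvable_injective (Subgroup.inclusion_injective hLV)
    have hPs : Group.IsSolvable (Fin k → S) :=
      Group.isSolvable_of_surjective (f := φ.toMonoidHom) φ.surjective
    have hnas := hQ.nas k S hS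
    have hk : k ≠ 0 := by
      rintro rfl
      apply hL.ne
      rw [Subgroup.eq_bot_iff_forall]
      intro x hx
      have h1 : φ ⟨x, hx⟩ = φ 1 := Subsingleton.elim _ _
      exact congrArg Subtype.val (φ.injective h1)
    have h0 : 0 < k := Nat.pos_of_ne_zero hk
    have hSs : Group.IsSolvable S :=
      Group.isSolvable_of_surjective (f := Pi.evalMonoidHom (fun _ : Fin k => S) ⟨0, h0⟩)
        (fun s => ⟨fun _ => s, rfl⟩)
    obtain ⟨a, b, hab⟩ := hnas.nab
    have := hnas.sim
    exact hab (IsSimpleGroup.comm_iff_isSolvable.2 hSs a b)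
  intro x hx
  rw [← hker x]
  have h1 : f x ∈ (sol G).map f := Subgroup.mem_map_of_mem f hx
  rw [hbot, Subgroup.mem_bot] at h1
  exact h1



theorem pf_MLNk (SOL : T_SOL) : T_MLNk := by
  intro P Q0 Y _ _ n M hsol hSer hne
  obtain ⟨M0, Mnor, Mmono, hfac, -⟩ := hSer
  have hmon : Monotone M := monotone_nat_of_le_succ Mmono
  have hn : n ≠ 0 := by
    intro h
    rw [h, M0] at hne
    exact hne rfl
  have hex : ∃ i, M (i + 1) ≠ ⊥ := by
    refine ⟨n - 1, ?_⟩
    rw [Nat.sub_add_cancel (Nat.one_le_iff_ne_zero.2 hn)]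
    exact hne
  have h0 := Nat.find_spec hex
  have h1 : ∀ j, j < Nat.find hex → M (j + 1) = ⊥ := fun j hj =>
    not_not.1 (Nat.find_min hex hj)
  set i := Nat.find hex with hi
  have h2 : M i = ⊥ := by
    rcases Nat.eq_zero_or_pos i with h | h
    · rw [h]; exact M0
    · have h3 := h1 (i - 1) (by omega)
      rwa [Nat.sub_add_cancel h] at h3
  have hin : i < n := by
    by_contra hcon
    push Not at hcon
    have h3 := hmon hcon
    rw [h2] at h3
    exact hne (le_bot_iff.1 h3)
  obtain ⟨Q, instQ, f, hf, hker, hQ⟩ := hfac i hin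
  have hinj : Function.Injective f := by
    rw [injective_iff_map_eq_one]
    intro x hx
    have h3 := (hker x).1 hx
    rw [h2, Subgroup.mem_bot] at h3
    exact Subtype.ext h3
  let e : M (i + 1) ≃* Q := MulEquiv.ofBijective f ⟨hinj, hf⟩
  rcases hQ with hQ | ⟨k, S, instS, finS, hPk, ⟨hQ⟩⟩
  · exfalso
    have := hQ
    have h3 : Group.IsSolvable (M (i + 1)) := Group.isSolvable_of_isSolvable_injective hinj
    have h4 := (SOL Y).2.1 (M (i + 1)) (Mnor _) h3
    rw [hsol] at h4
    exact h0 (le_bot_iff.1 h4)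
  · refine ⟨M (i + 1), Mnor _, k, S, instS, finS, hmon (by omega), ?_, hPk, ⟨e.trans hQ⟩⟩
    by_contra hk
    have hk0 : k = 0 := by omega
    subst hk0
    apply h0
    rw [Subgroup.eq_bot_iff_forall]
    intro x hx
    have h3 : (e.trans hQ) ⟨x, hx⟩ = (e.trans hQ) 1 := by
      funext j
      exact j.elim0
    have h4 := (e.trans hQ).injective h3
    exact congrArg Subtype.val h4



/-- A nontrivial finite group has a minimal normal subgroup. -/
theorem exists_minY (Y : Type) [Group Y] [Finite Y] (h : (⊤ : Subgroup Y) ≠ ⊥) :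
    ∃ L : Subgroup Y, MinNk L := by
  have hex : ∃ n : ℕ, ∃ L : Subgroup Y, L.Normal ∧ L ≠ ⊥ ∧ Nat.card L = n :=
    ⟨_, ⊤, inferInstance, h, rfl⟩
  obtain ⟨L, hL, hL0, hLn⟩ := Nat.find_spec hex
  refine ⟨L, hL, hL0, ?_⟩
  intro M hM hML
  by_cases hM0 : M = ⊥
  · exact Or.inl hM0
  · right
    have h1 : Nat.find hex ≤ Nat.card M := Nat.find_min' hex ⟨M, hM, hM0, rfl⟩
    rw [← hLn] at h1
    exact Subgroup.eq_of_le_of_card_ge hML h1

theorem cen_ne_top {e : ℝ} (Y : Type) [Group Y] [Finite Y] (L : Subgroup Y) (hL : L ≠ ⊥)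
    (k : ℕ) (S : Type) [Group S] (hS : FewK e k S) (f : L ≃* (Fin k → S)) :
    Subgroup.centralizer (L : Set Y) ≠ ⊤ := by
  intro hC
  have hk : k ≠ 0 := by
    intro h0
    subst h0
    apply hL
    rw [Subgroup.eq_bot_iff_forall]
    intro x hx
    have h3 : f ⟨x, hx⟩ = f 1 := by
      funext j
      exact j.elim0
    exact congrArg Subtype.val (f.injective h3)
  obtain ⟨a, b, hab⟩ := hS.nab
  apply hab
  have hcom : ∀ x y : L, x * y = y * x := by
    intro x y
    apply Subtype.ext
    have h4 : (y : Y) ∈ Subgroup.centralizer (L : Set Y) := by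
      rw [hC]; exact Subgroup.mem_top _
    exact (Subgroup.mem_centralizer_iff.1 h4) x x.2
  have h5 := hcom (f.symm fun _ => a) (f.symm fun _ => b)
  have h6 := congrArg f h5
  rw [map_mul, map_mul, MulEquiv.apply_symm_apply, MulEquiv.apply_symm_apply] at h6
  exact congrFun h6 ⟨0, Nat.pos_of_ne_zero hk⟩

theorem pf_TKYk (TPN : T_TPNk) (TKQ : T_TKQk) (NAG : T_NAG) (hcla : ∀ e : ℝ, Cla (FewK e)) : T_TKYk := by
  intro e he
  have key : ∀ n : ℕ, ∀ (Y : Type) [Group Y] [Finite Y], Nat.card Y = n → TopK (FewK e) Y →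
      (kc Y : ℝ) ≤ (Nat.card Y : ℝ) ^ (1 / 2 - 3 / (2 * e)) := by
    intro n
    induction n using Nat.strong_induction_on with
    | _ n ih =>
      intro Y _ _ hn hT
      by_cases htop : (⊤ : Subgroup Y) = ⊥
      · have hs : Subsingleton Y := by
          constructor
          intro a b
          have ha : a ∈ (⊥ : Subgroup Y) := by rw [← htop]; exact Subgroup.mem_top _
          have hb : b ∈ (⊥ : Subgroup Y) := by rw [← htop]; exact Subgroup.mem_top _
          rw [Subgroup.mem_bot] at ha hb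
          rw [ha, hb]
        have h1 : Nat.card Y = 1 := Nat.card_of_subsingleton 1
        have h2 : kc Y ≤ Nat.card Y :=
          Nat.card_le_card_of_surjective (ConjClasses.mk : Y → ConjClasses Y)
            ConjClasses.mk_surjective
        rw [h1] at h2 ⊢
        rw [Nat.cast_one, Real.one_rpow]
        exact_mod_cast h2
      · obtain ⟨L, hL⟩ := exists_minY Y htop
        obtain ⟨k, S, instS, finS, hS, ⟨f⟩⟩ := hT L hL
        have hLn := hL.nor
        have hC := cen_ne_top Y L hL.ne k S hS f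
        have hcard : Nat.card (Subgroup.centralizer (L : Set Y)) < Nat.card Y := by
          have h1 := Subgroup.card_le_card_group (Subgroup.centralizer (L : Set Y))
          refine lt_of_le_of_ne h1 fun h2 => hC ?_
          exact (Subgroup.card_eq_iff_eq_top _).1 h2
        have hTC : TopK (FewK e) (Subgroup.centralizer (L : Set Y)) :=
          TPN (FewK e) (hcla e) Y hT _ inferInstance
        have h3 := ih _ (hn ▸ hcard) (Subgroup.centralizer (L : Set Y)) rfl hTC
        have h4 := TKQ e he Y L k S hS ⟨f⟩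
        have h5 := NAG Y (Subgroup.centralizer (L : Set Y))
        have h6 := Subgroup.card_mul_index (Subgroup.centralizer (L : Set Y))
        have h7 : (kc Y : ℝ) ≤ (kc (Subgroup.centralizer (L : Set Y)) : ℝ) *
            (kc (Y ⧸ Subgroup.centralizer (L : Set Y)) : ℝ) := by exact_mod_cast h5
        rw [← h6, Nat.cast_mul, Real.mul_rpow (Nat.cast_nonneg _) (Nat.cast_nonneg _)]
        exact h7.trans (mul_le_mul h3 h4 (Nat.cast_nonneg _)
          (Real.rpow_nonneg (Nat.cast_nonneg _) _))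
  intro Y _ _ hT
  exact key _ Y rfl hT


end Pool.Agent.H6.FN.K
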