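import Pool.Agent.H6.FN.Targets2
import Pool.Agent.H51.FN.TKF

/-!
# MP_7500ea_al, board fcn_modules, second wave: row TKFk (adapted from the row of helper51)
-/

set_option autoImplicit false

open scoped Classical

namespace Pool.Agent.H6.FN.K

open _root_.FI MulAction Pool.Agent.H51.FN


theorem pf_TKFk (ACT : T_ACT) (NAG : T_NAG) : T_TKFk := by
  intro e he Y _ _ L hLn k S _ _ hS ⟨φ⟩ hcen
  have he0 : 0 < e := by linarith
  have hδ : (0 : ℝ) ≤ 1 / 2 - 3 / (2 * e) := by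
    have h1 : 3 / (2 * e) ≤ 1 / 2 := by
      rw [div_le_div_iff₀ (by linarith) (by norm_num)]
      linarith
    linarith
  obtain ⟨σ, a, hconj, hmul, hL, hker⟩ := ACT S Y ⟨hS.sim, hS.nab⟩ L hLn k φ
  have := hLn
  -- the homomorphism to the automorphisms
  let B : Subgroup Y := σ.ker
  have hB : ∀ b : B, σ (b : Y) = 1 := fun b => b.2
  let ψ : B →* (Fin k → MulAut S) := MonoidHom.mk' (fun b => a (b : Y)) (by
    intro g h
    funext i
    change a ((g : Y) * (h : Y)) i = a (g : Y) i * a (h : Y) i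
    rw [hmul, hB h]
    rfl)
  have hψ : Function.Injective ψ := by
    rw [injective_iff_map_eq_one]
    intro b hb
    apply Subtype.ext
    apply hcen
    exact hker b (hB b) (fun i => congrFun hb i)
  have hcB : Nat.card B ≤ Nat.card (MulAut S) ^ k := by
    have h1 := Nat.card_le_card_of_injective _ hψ
    rw [Nat.card_fun, Nat.card_eq_fintype_card (α := Fin k), Fintype.card_fin] at h1
    exact h1
  have hLB : L ≤ B := fun l hl => (hL ⟨l, hl⟩).1
  -- the factor group of `B`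
  have hkQ : (kc (Y ⧸ B) : ℝ) ≤ (kc σ.range : ℝ) := by
    have h1 : kc (Y ⧸ B) ≤ kc σ.range :=
      kc_le_of_surj (QuotientGroup.quotientKerEquivRange σ).symm.toMonoidHom
        (QuotientGroup.quotientKerEquivRange σ).symm.surjective
    exact_mod_cast h1
  -- the factors `L` and `B / L`
  let L' : Subgroup B := L.subgroupOf B
  have hcL : Nat.card L' = Nat.card S ^ k := by
    have h1 : Nat.card L' = Nat.card L := Nat.card_congr (Subgroup.subgroupOfEquivOfLe hLB).toEquiv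
    rw [h1, Nat.card_congr φ.toEquiv, Nat.card_fun, Nat.card_eq_fintype_card (α := Fin k),
      Fintype.card_fin]
  have hkL : kc L' ≤ kc S ^ k := by
    refine le_trans ?_ (kc_pi (k := k) (S := S))
    exact kc_le_of_surj ((φ.symm.trans (Subgroup.subgroupOfEquivOfLe hLB).symm).toMonoidHom)
      (φ.symm.trans (Subgroup.subgroupOfEquivOfLe hLB).symm).surjective
  have hkBL : kc (B ⧸ L') * Nat.card S ^ k ≤ Nat.card (MulAut S) ^ k := by
    rw [← hcL]
    have h1 : kc (B ⧸ L') ≤ Nat.card (B ⧸ L') := kc_le_card _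
    have h2 := Subgroup.card_eq_card_quotient_mul_card_subgroup L'
    calc kc (B ⧸ L') * Nat.card L' ≤ Nat.card (B ⧸ L') * Nat.card L' := Nat.mul_le_mul_right _ h1
      _ = Nat.card B := h2.symm
      _ ≤ _ := hcB
  have h1 : kc Y ≤ kc B * kc (Y ⧸ B) := NAG Y B
  have h2 : kc B ≤ kc L' * kc (B ⧸ L') := NAG B L'
  have h3 : kc Y * Nat.card S ^ k ≤ kc S ^ k * Nat.card (MulAut S) ^ k * kc (Y ⧸ B) := by
    calc kc Y * Nat.card S ^ k ≤ (kc L' * kc (B ⧸ L')) * kc (Y ⧸ B) * Nat.card S ^ k :=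
          Nat.mul_le_mul_right _ (h1.trans (Nat.mul_le_mul_right _ h2))
      _ = kc L' * (kc (B ⧸ L') * Nat.card S ^ k) * kc (Y ⧸ B) := by ring
      _ ≤ kc S ^ k * Nat.card (MulAut S) ^ k * kc (Y ⧸ B) :=
          Nat.mul_le_mul_right _ (Nat.mul_le_mul hkL hkBL)
  have h4 : (kc Y : ℝ) * (Nat.card S : ℝ) ^ k ≤
      (kc S : ℝ) ^ k * (Nat.card (MulAut S) : ℝ) ^ k * kc (Y ⧸ B) := by exact_mod_cast h3
  have hS0 : (0 : ℝ) < Nat.card S := by exact_mod_cast Nat.card_pos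
  have h5 : (kc Y : ℝ) * (Nat.card S : ℝ) ^ k ≤
      ((Nat.card S : ℝ) ^ (3 / 2 - 3 / (2 * e))) ^ k := by
    calc (kc Y : ℝ) * (Nat.card S : ℝ) ^ k
        ≤ (kc S : ℝ) ^ k * (Nat.card (MulAut S) : ℝ) ^ k * kc (Y ⧸ B) := h4
      _ ≤ (kc S : ℝ) ^ k * (Nat.card (MulAut S) : ℝ) ^ k * (kc σ.range : ℝ) :=
          mul_le_mul_of_nonneg_left hkQ (by positivity)
      _ = (kc σ.range : ℝ) * ((kc S : ℝ) * Nat.card (MulAut S)) ^ k := by
          rw [mul_pow]; ring
      _ ≤ _ := hS.num k le_rfl σ.range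
  have h6 : ((Nat.card S : ℝ) ^ (3 / 2 - 3 / (2 * e))) ^ k =
      (((Nat.card S : ℝ) ^ k) ^ (1 / 2 - 3 / (2 * e))) * (Nat.card S : ℝ) ^ k := by
    have h7 : (3 / 2 - 3 / (2 * e)) = (1 / 2 - 3 / (2 * e)) + 1 := by ring
    rw [h7, Real.rpow_add hS0, Real.rpow_one, mul_pow, ← Real.rpow_natCast, ← Real.rpow_natCast,
      ← Real.rpow_mul hS0.le, ← Real.rpow_mul hS0.le, mul_comm (k : ℝ)]
  rw [h6] at h5
  have h7 : (kc Y : ℝ) ≤ ((Nat.card S : ℝ) ^ k) ^ (1 / 2 - 3 / (2 * e)) :=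
    le_of_mul_le_mul_right h5 (by positivity)
  refine h7.trans (Real.rpow_le_rpow (by positivity) ?_ hδ)
  have h8 : Nat.card S ^ k ≤ Nat.card Y := by
    have h9 : Nat.card L = Nat.card S ^ k := by
      rw [Nat.card_congr φ.toEquiv, Nat.card_fun, Nat.card_eq_fintype_card (α := Fin k),
        Fintype.card_fin]
    rw [← h9]
    exact Subgroup.card_le_card_group L
  exact_mod_cast h8


end Pool.Agent.H6.FN.K
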