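import Pool.Agent.H6.FN.TargetsG

/-!
# MP_7500ea_al, board fcn_modules, rows KSB, BAS
-/

open scoped Classical

namespace Pool.Agent.H6.FN

open _root_.FI MulAction

theorem pf_KSB : T_KSB := by
  intro G _ _ H
  have h1 := H.commProb_subgroup_le
  rw [commProb_def', commProb_def'] at h1
  have hG : (0 : ℚ) < (Nat.card G : ℚ) := by exact_mod_cast Nat.card_pos
  have hH : (0 : ℚ) < (Nat.card H : ℚ) := by exact_mod_cast Nat.card_pos
  have hmul : (Nat.card H : ℚ) * (H.index : ℚ) = (Nat.card G : ℚ) := by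
    exact_mod_cast Subgroup.card_mul_index H
  have hi : (0 : ℚ) < (H.index : ℚ) := by
    exact_mod_cast Nat.pos_of_ne_zero Subgroup.index_ne_zero_of_finite
  have h2 : (Nat.card (ConjClasses H) : ℚ) ≤ (H.index : ℚ) * (Nat.card (ConjClasses G) : ℚ) := by
    rw [div_le_iff₀ hH] at h1
    calc (Nat.card (ConjClasses H) : ℚ) ≤ _ := h1
      _ = (Nat.card (ConjClasses G) : ℚ) * ((Nat.card H : ℚ) * (H.index : ℚ)) /
            (Nat.card G : ℚ) * (H.index : ℚ) := by ring
      _ = _ := by
        rw [hmul, mul_div_assoc, div_self hG.ne', mul_one, mul_comm]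
  exact_mod_cast h2

theorem pf_BAS : T_BAS := by
  intro G α _ _ _ B hB
  have hinj : Function.Injective (fun (g : G) (b : B) => g • (b : α)) := by
    intro g h hgh
    have h1 : h⁻¹ * g = 1 := by
      apply hB
      intro b hb
      have h2 : g • b = h • b := congrFun hgh ⟨b, hb⟩
      rw [mul_smul, h2, inv_smul_smul]
    exact (inv_mul_eq_one.1 h1).symm
  have h3 := Nat.card_le_card_of_injective _ hinj
  rw [Nat.card_fun] at h3
  simpa using h3

end Pool.Agent.H6.FN
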