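import Pool.Agent.H6.FN.Targets2
import Pool.Agent.H51.FN.KPP

/-!
# MP_7500ea_al, board fcn_modules, second wave: rows PR2, KP2 (adapted from the rows of helper66
and helper51)
-/

open scoped Classical

namespace Pool.Agent.H6.FN.K

open _root_.FI MulAction Pool.Agent.H51.FN

theorem fact_le (k : ℕ) : (k + 1).factorial ≤ (k + 1) ^ k := by
  induction k with
  | zero => simp
  | succ k ih =>
    rw [Nat.factorial_succ, pow_succ, mul_comm]
    exact Nat.mul_le_mul_right _ (ih.trans (Nat.pow_le_pow_left (by omega) k))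

theorem pf_PR2 (CHN : T_CHN) (MDG : T_MDG) (MTR : T_MTR) (NUB : T_NUB) : T_PR2 := by
  intro α _ _ G hG hα hA
  have hn0 : (0 : ℝ) < (Nat.card α : ℝ) := by exact_mod_cast hα
  rcases lt_or_ge (Real.log (Nat.card α)) 20 with hlt | hge
  · have h1 : Nat.card G ≤ Nat.card (Equiv.Perm α) :=
      Nat.card_le_card_of_injective _ Subtype.val_injective
    rw [Nat.card_perm] at h1
    obtain ⟨k, hk⟩ : ∃ k, Nat.card α = k + 1 := ⟨Nat.card α - 1, by omega⟩
    have h2 : Nat.card G ≤ (Nat.card α) ^ k := by
      rw [hk] at h1 ⊢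
      exact h1.trans (fact_le k)
    have h3 : (Nat.card G : ℝ) ≤ (Nat.card α : ℝ) ^ k := by exact_mod_cast h2
    have h4 : (Nat.card α : ℝ) ^ k = Real.exp (k * Real.log (Nat.card α)) := by
      rw [Real.exp_nat_mul, Real.exp_log hn0]
    rw [h4] at h3
    refine h3.trans (Real.exp_le_exp.2 ?_)
    have h5 : ((Nat.card α : ℝ) - 1) = k := by
      rw [hk]
      push_cast
      ring
    rw [h5, mul_comm (20 : ℝ)]
    exact mul_le_mul_of_nonneg_left hlt.le (Nat.cast_nonneg _)
  · have h27 : 27 ≤ Nat.card α := by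
      have h1 : (11 : ℝ) ≤ Real.exp 10 := by
        have := Real.add_one_le_exp (10 : ℝ)
        linarith
      have h2 : Real.exp 20 = Real.exp 10 * Real.exp 10 := by
        rw [← Real.exp_add]
        norm_num
      have h3 : (27 : ℝ) ≤ Real.exp 20 := by
        rw [h2]
        nlinarith
      have h4 : Real.exp 20 ≤ (Nat.card α : ℝ) := by
        rw [← Real.exp_log hn0]
        exact Real.exp_le_exp.2 hge
      have h5 : (27 : ℝ) ≤ (Nat.card α : ℝ) := h3.trans h4
      exact_mod_cast h5
    have hne : Nonempty α := by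
      by_contra hne
      rw [not_nonempty_iff] at hne
      rw [Nat.card_of_isEmpty] at h27
      omega
    have hno3 : ∀ g ∈ G, ¬ g.IsThreeCycle := fun g hg h3 =>
      hA (Equiv.Perm.alternatingGroup_le_of_isPreprimitive_of_isThreeCycle_mem hG h3 hg)
    obtain ⟨t, ht, hT, hcard⟩ := CHN G α hG
    have htb : (t : ℝ) ≤ 62 * (Real.sqrt (Nat.card α) + 1) := by
      rcases Nat.lt_or_ge t 2 with h | h
      · have h1 : (t : ℝ) ≤ 1 := by exact_mod_cast Nat.lt_succ_iff.1 h
        have h2 : 0 ≤ Real.sqrt (Nat.card α) := Real.sqrt_nonneg _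
        linarith
      · have h2 : IsMultiplyPretransitive G α 2 := isMultiplyPretransitive_of_le h ht
        exact MTR α G (MDG α G h2 hno3 h27) t ht hT
    exact hcard.trans (Real.exp_le_exp.2 (NUB (Nat.card α) hge t htb))

theorem pf_KP2 (PR2 : T_PR2) (KSN : T_KSN) (KSB : T_KSB) : T_KP2 := by
  intro α _ T hT
  have : Fintype α := Fintype.ofFinite α
  have hE : (4 : ℝ) ≤ Real.exp 20 := by
    have := Real.add_one_le_exp (20 : ℝ)
    linarith
  have hE1 : (1 : ℝ) ≤ Real.exp 20 := by linarith
  unfold PB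
  by_cases hn : Nat.card α ≤ 1
  · have h1 : Subsingleton α := Finite.card_le_one_iff_subsingleton.1 hn
    have h2 : kc T ≤ Nat.card T := kc_le_card T
    have h3 : Nat.card T ≤ 1 := by
      rw [Finite.card_le_one_iff_subsingleton]
      infer_instance
    have h4 : (kc T : ℝ) ≤ 1 := by exact_mod_cast h2.trans h3
    exact h4.trans (one_le_pow₀ hE1)
  · have hn2 : 2 ≤ Nat.card α := by omega
    have hnt : Nontrivial α := by
      rw [← Fintype.one_lt_card_iff_nontrivial, ← Nat.card_eq_fintype_card]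
      omega
    have hnorb : norb α T = 1 := by
      have : IsPretransitive T α := hT.toIsPretransitive
      have : Subsingleton (orbitRel.Quotient T α) :=
        (pretransitive_iff_subsingleton_quotient T α).1 inferInstance
      have : Nonempty (orbitRel.Quotient T α) := by
        obtain ⟨a, _⟩ := exists_pair_ne α
        exact ⟨Quotient.mk'' a⟩
      exact Nat.card_eq_one_iff_unique.2 ⟨inferInstance, inferInstance⟩
    rw [hnorb]
    obtain ⟨n, hn'⟩ : ∃ n, Nat.card α = n + 2 := ⟨Nat.card α - 2, by omega⟩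
    have hn1 : Nat.card α - 1 = n + 1 := by omega
    rw [hn1]
    by_cases hA : alternatingGroup α ≤ T
    · have h1 : T.index ≤ 2 := by
        have h2 := Subgroup.index_dvd_of_le hA
        rw [alternatingGroup.index_eq_two] at h2
        exact Nat.le_of_dvd (by norm_num) h2
      have h3 : kc T ≤ T.index * kc (Equiv.Perm α) := KSB (Equiv.Perm α) T
      have h4 : kc (Equiv.Perm α) ≤ 2 ^ (Nat.card α - 1) := KSN α
      rw [hn1] at h4
      have h5 : kc T ≤ 2 * 2 ^ (n + 1) := h3.trans (Nat.mul_le_mul h1 h4)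
      have h6 : 2 * 2 ^ (n + 1) ≤ 4 ^ (n + 1) := by
        have h7 : (4 : ℕ) ^ (n + 1) = 2 ^ (n + 1) * 2 ^ (n + 1) := by
          rw [← mul_pow]; norm_num
        rw [h7]
        refine Nat.mul_le_mul_right _ ?_
        calc 2 = 2 ^ 1 := by norm_num
          _ ≤ 2 ^ (n + 1) := Nat.pow_le_pow_right (by norm_num) (by omega)
      have h8 : (kc T : ℝ) ≤ (4 : ℝ) ^ (n + 1) := by exact_mod_cast h5.trans h6
      exact h8.trans (pow_le_pow_left₀ (by norm_num) hE _)
    · have h1 := PR2 α T hT (by omega) hA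
      have h2 : (kc T : ℝ) ≤ Nat.card T := by exact_mod_cast kc_le_card T
      refine h2.trans (h1.trans ?_)
      rw [← Real.exp_nat_mul]
      apply Real.exp_le_exp.2
      rw [hn']
      push_cast
      linarith

end Pool.Agent.H6.FN.K
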