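import Pool.Agent.H6.FN.Defs2
import Pool.Agent.H6.FN.TargetsG
import Pool.Agent.H6.FC.Targets

/-!
# MP_7500ea_al, board fcn_modules, second wave: targets
-/

open scoped Classical ComplexConjugate

namespace FI

open AMc AMt MulAction

/-- NUB: numerical -/
def T_NUB : Prop := ∀ n : ℕ, 20 ≤ Real.log n → ∀ t : ℝ, t ≤ 62 * (Real.sqrt n + 1) →
  t * Real.log n + LF n ≤ 20 * ((n : ℝ) - 1)

/-- PR2: the order of a primitive group which does not contain the alternating group -/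
def T_PR2 : Prop := ∀ (α : Type) [Fintype α] [DecidableEq α] (G : Subgroup (Equiv.Perm α)),
  IsPreprimitive G α → 1 ≤ Nat.card α → ¬ alternatingGroup α ≤ G →
  (Nat.card G : ℝ) ≤ Real.exp (20 * ((Nat.card α : ℝ) - 1))

/-- KP2: primitive groups -/
def T_KP2 : Prop := ∀ (α : Type) [Finite α] (T : Subgroup (Equiv.Perm α)),
  IsPreprimitive T α → PB (Real.exp 20) α T

/-- KN2: all permutation groups -/
def T_KN2 : Prop := ∀ (α : Type) [Finite α] (T : Subgroup (Equiv.Perm α)),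
  PB (Real.exp 20) α T

/-- PAR: the number of partitions -/
def T_PAR : Prop := ∀ m : ℕ,
  (kc (Equiv.Perm (Fin m)) : ℝ) ≤ Real.exp (27 / 10 * Real.sqrt m)

/-! ## Classes of groups -/

/-- TPNk: normal subgroups -/
def T_TPNk : Prop := ∀ (Q : ℕ → (S : Type) → [Group S] → Prop), Cla Q →
  ∀ (Y : Type) [Group Y] [Finite Y], TopK Q Y → ∀ H : Subgroup Y, H.Normal → TopK Q H

/-- TPIk: isomorphic groups -/
def T_TPIk : Prop := ∀ (Q : ℕ → (S : Type) → [Group S] → Prop) (Y Y' : Type) [Group Y]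
  [Group Y'], Nonempty (Y ≃* Y') → TopK Q Y → TopK Q Y'

/-- SQNk: factor groups -/
def T_SQNk : Prop := ∀ (P Q : ℕ → (S : Type) → [Group S] → Prop), Cla P →
  ∀ (G : Type) [Group G] [Finite G] (n : ℕ) (N : ℕ → Subgroup G), SerNk P Q G n N →
  ∀ (M : Subgroup G) [M.Normal], M ≤ N n → SerK P Q (G ⧸ M)

/-- SLNk: the solvable radical -/
def T_SLNk : Prop := ∀ (P Q : ℕ → (S : Type) → [Group S] → Prop), Cla Q →
  ∀ (G : Type) [Group G] [Finite G] (n : ℕ) (N : ℕ → Subgroup G), SerNk P Q G n N → sol G ≤ N n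

/-- SNNk: normal subgroups -/
def T_SNNk : Prop := ∀ (P Q : ℕ → (S : Type) → [Group S] → Prop), Cla P → Cla Q →
  ∀ (G : Type) [Group G] [Finite G] (H : Subgroup G), H.Normal → SerK P Q G → SerK P Q H

/-- MLNk: a normal subgroup `L ≅ S ^ k` -/
def T_MLNk : Prop := ∀ (P Q : ℕ → (S : Type) → [Group S] → Prop) (Y : Type) [Group Y] [Finite Y]
  (n : ℕ) (N : ℕ → Subgroup Y), sol Y = ⊥ → SerNk P Q Y n N → N n ≠ ⊥ →
  ∃ (L : Subgroup Y) (_ : L.Normal) (k : ℕ) (S : Type) (_ : Group S) (_ : Finite S),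
    L ≤ N n ∧ 1 ≤ k ∧ P k S ∧ Nonempty (L ≃* (Fin k → S))

/-- TKFk: a normal subgroup `S ^ k` with trivial centralizer -/
def T_TKFk : Prop := ∀ e : ℝ, 3 ≤ e → ∀ (Y : Type) [Group Y] [Finite Y] (L : Subgroup Y),
  L.Normal → ∀ (k : ℕ) (S : Type) [Group S] [Finite S], FewK e k S →
  Nonempty (L ≃* (Fin k → S)) → (∀ y : Y, (∀ l ∈ L, y * l = l * y) → y = 1) →
  (kc Y : ℝ) ≤ (Nat.card Y : ℝ) ^ (1 / 2 - 3 / (2 * e))

/-- TKQk: the factor group by the centralizer -/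
def T_TKQk : Prop := ∀ e : ℝ, 3 ≤ e → ∀ (Y : Type) [Group Y] [Finite Y] (L : Subgroup Y)
  [L.Normal] (k : ℕ) (S : Type) [Group S] [Finite S], FewK e k S →
  Nonempty (L ≃* (Fin k → S)) →
  (kc (Y ⧸ Subgroup.centralizer (L : Set Y)) : ℝ) ≤
    ((Subgroup.centralizer (L : Set Y)).index : ℝ) ^ (1 / 2 - 3 / (2 * e))

/-- TKYk: the number of conjugacy classes of `Y` -/
def T_TKYk : Prop := ∀ e : ℝ, 3 ≤ e → ∀ (Y : Type) [Group Y] [Finite Y], TopK (FewK e) Y →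
  (kc Y : ℝ) ≤ (Nat.card Y : ℝ) ^ (1 / 2 - 3 / (2 * e))

/-! ## Alternating groups -/

/-- NAMk: numerical -/
def T_NAMk : Prop := ∀ e : ℝ, 91 / 25 ≤ e → ∀ m : ℕ,
  (200 ≤ m → Real.exp 20 * (2 * Real.exp (27 / 10 * Real.sqrt m)) * (m.factorial : ℝ) ≤
    ((m.factorial : ℝ) / 2) ^ (3 / 2 - 3 / (2 * e))) ∧
  (100 ≤ m → 2 * Real.exp (27 / 10 * Real.sqrt m) * (m.factorial : ℝ) ≤
    ((m.factorial : ℝ) / 2) ^ (3 / 2 - 3 / (2 * e)))

/-- CNAk: alternating groups of large degree -/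
def T_CNAk : Prop := ∀ e : ℝ, 91 / 25 ≤ e → ∀ (k : ℕ) (S : Type) [Group S], AltK k S →
  FewK e k S

/-! ## The theorem -/

/-- MAk: the claim -/
def T_MAk : Prop := ∀ e : ℝ, 3 ≤ e → ∀ (Y : Type) [Group Y] [Finite Y],
  SerK (PP e) (FewK e) Y → CA e Y

end FI
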