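import Pool.Agent.H6.FC.All
import Pool.Agent.H6.FN.Targets2
import Pool.Agent.H12.FN.UNI
import Pool.Agent.H13.FN.NAMk
import Pool.Agent.H17.FNI.IMS
import Pool.Agent.H19.FN.AUA
import Pool.Agent.H27.FN.A3C
import Pool.Agent.H27.FN.UD5
import Pool.Agent.H32.FN.CNAk
import Pool.Agent.H36.FN.IM3
import Pool.Agent.H36.FN.KPB
import Pool.Agent.H4.FN.HIT
import Pool.Agent.H4.FN.KPI
import Pool.Agent.H51.FN.CNX
import Pool.Agent.H53.FN.CHN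
import Pool.Agent.H56.FN.UD2
import Pool.Agent.H56.FN.UD3
import Pool.Agent.H56.FN.UD4
import Pool.Agent.H56.FN.UDM
import Pool.Agent.H57.FN.IM1
import Pool.Agent.H57.FN.IM2
import Pool.Agent.H57.FN.NAG
import Pool.Agent.H59.FN.NUB
import Pool.Agent.H6.FN.Asm2
import Pool.Agent.H6.FN.CNK
import Pool.Agent.H6.FN.K1
import Pool.Agent.H6.FN.K2
import Pool.Agent.H6.FN.KSB
import Pool.Agent.H6.FN.PR2
import Pool.Agent.H60.FCN.CMS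
import Pool.Agent.H60.FCN.DIA
import Pool.Agent.H60.FCN.UPB
import Pool.Agent.H65.FN.MDG
import Pool.Agent.H65.FN.MTR
import Pool.Agent.H66.FN.KSN
import Pool.Agent.H7.FN.A3I
import Pool.Agent.H74.FCN.PAR

/-!
# MP_7500ea_al, board fcn_modules: composition of the rows
-/

open scoped Classical ComplexConjugate

namespace FI.All4

open FI FI.All FI.All2 FI.All3 AMc AMt

theorem rNAG : T_NAG := Pool.Agent.H57.FN.pf_NAG 
theorem rKSB : T_KSB := Pool.Agent.H6.FN.pf_KSB 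
theorem rKSN : T_KSN := Pool.Agent.H66.FN.pf_KSN 
theorem rKPI : T_KPI := Pool.Agent.H4.FN.pf_KPI rNAG
theorem rKPB : T_KPB := Pool.Agent.H36.FN.pf_KPB rNAG
theorem rHIT : T_HIT := Pool.Agent.H4.FN.pf_HIT 
theorem rBAS : T_BAS := Pool.Agent.H6.FN.pf_BAS 
theorem rCON : T_CON := Pool.Agent.H51.FN.pf_CON 
theorem rDIA : T_DIA := Pool.Agent.H60.FCN.pf_DIA 
theorem rUDM : T_UDM := Pool.Agent.H56.FN.pf_UDM 
theorem rUD2 : T_UD2 := Pool.Agent.H56.FN.pf_UD2 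
theorem rUD3 : T_UD3 := Pool.Agent.H56.FN.pf_UD3 rCON rUDM
theorem rUD4 : T_UD4 := Pool.Agent.H56.FN.pf_UD4 rCON rUDM rDIA
theorem rUD5 : T_UD5 := FI.pf_UD5 rCON
theorem rUPB : T_UPB := Pool.Agent.H60.FCN.pf_UPB rUD2 rUD3 rUD4 rUD5
theorem rUNI : T_UNI := Pool.Agent.H12.FN.pf_UNI rHIT rBAS rUPB
theorem rIM1 : T_IM1 := Pool.Agent.H57.FN.pf_IM1 
theorem rIM2 : T_IM2 := Pool.Agent.H57.FN.pf_IM2 
theorem rIM3 : T_IM3 := Pool.Agent.H36.FN.pf_IM3 rHIT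
theorem rIMS : T_IMS := Pool.Agent.H17.FNI.pf_IMS rIM1 rIM2 rIM3 rHIT rBAS
theorem rCMS : T_CMS := Pool.Agent.H60.FCN.pf_CMS 
theorem rMDG : T_MDG := Pool.Agent.H65.FN.pf_MDG rCMS
theorem rMTR : T_MTR := Pool.Agent.H65.FN.pf_MTR 
theorem rCHN : T_CHN := Pool.Agent.H53.FN.pf_CHN rUNI rIMS
theorem rNUB : T_NUB := Pool.Agent.H59.FN.pf_NUB 
theorem rPAR : T_PAR := Pool.Agent.H74.FCN.pf_PAR rKSN
theorem rNAMk : T_NAMk := FI.pf_NAMk 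
theorem rCNK : T_CNK := Pool.Agent.H6.FN.pf_CNK rKCN rSSQ rKKP
theorem rCNC : T_CNC := Pool.Agent.H6.FN.pf_CNC rKSB
theorem rA3C : T_A3C := FI.pf_A3C 
theorem rA3I : T_A3I := Pool.Agent.H7.FN.pf_A3I 
theorem rAUA : T_AUA := Pool.Agent.H19.FN.pf_AUA rA3C rA3I
theorem rPR2 : T_PR2 := Pool.Agent.H6.FN.K.pf_PR2 rCHN rMDG rMTR rNUB
theorem rKP2 : T_KP2 := Pool.Agent.H6.FN.K.pf_KP2 rPR2 rKSN rKSB
theorem rKN2 : T_KN2 := kn2 rKPI rKPB rKP2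
theorem rCNAk : T_CNAk := Pool.Agent.H32.FN.pf_CNAk rAUA rNAMk rKN2 rPAR rKSB
theorem rTPNk : T_TPNk := Pool.Agent.H6.FN.K.pf_TPNk rNSQ
theorem rTPIk : T_TPIk := Pool.Agent.H6.FN.K.pf_TPIk
theorem rSQNk : T_SQNk := Pool.Agent.H6.FN.K.pf_SQNk rNSQ
theorem rSLNk : T_SLNk := Pool.Agent.H6.FN.K.pf_SLNk rSOL
theorem rSNNk : T_SNNk := Pool.Agent.H6.FN.K.pf_SNNk rNSQ rTPNk
theorem rMLNk : T_MLNk := Pool.Agent.H6.FN.K.pf_MLNk rSOL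
theorem rTKFk : T_TKFk := Pool.Agent.H6.FN.K.pf_TKFk rACT rNAG
theorem rTKQk : T_TKQk := Pool.Agent.H6.FN.K.pf_TKQk rTKFk
theorem rTKYk : T_TKYk := Pool.Agent.H6.FN.K.pf_TKYk rTPNk rTKQk rNAG cla_few

theorem rMAk : T_MAk :=
  mak rKRN rSLQ rTRD rST2 rS1A rS1E rS1F rS1C rTPIk rSQNk rSLNk rSNNk rMLNk rTKYk rCNK rCNC

/-- the reduction to conditions on simple groups -/
theorem hSerK (e : ℝ) (he : 91 / 25 ≤ e) (G : Type) [Group G] [Finite G]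
    (hG : SerK (PP e) (FewK e) G) :
    ∃ θ ∈ Irr (fit G), θ 1 = 1 ∧ ((fit G).index : ℝ) ≤ acd (fit G) θ ^ e :=
  serk_thm rSQNk rSLNk rMAk rFIN e he G hG

theorem pqalt (e : ℝ) (he : e0 ≤ e) (G : Type) [Group G] (hG : SerK (PQ e) AltK G) :
    SerK (PP e) (FewK e) G :=
  serk_mono (fun k S _ _ h => pq_pp rONE rSGP rSG5 e he (by have := rNE.1; linarith) k S h)
    (fun k S _ h => rCNAk e (rNE.1.trans he) k S h) G hG

theorem hPA (e : ℝ) (he : e0 ≤ e) (G : Type) [Group G] [Finite G] (hG : SerK (PQ e) AltK G) :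
    ∃ θ ∈ Irr (fit G), θ 1 = 1 ∧ ((fit G).index : ℝ) ≤ acd (fit G) θ ^ e :=
  hSerK e (rNE.1.trans he) G (pqalt e he G hG)

theorem hPA' (e : ℝ) (h : ∀ (G : Type) [Group G] [Finite G], SerK (PQ e) AltK G →
    ∃ θ ∈ Irr (fit G), θ 1 = 1 ∧ ((fit G).index : ℝ) ≤ acd (fit G) θ ^ e) : e0 ≤ e :=
  hPQ' e fun G _ _ hG => h G (ser_serk G hG)

theorem hInvK (e : ℝ) (he : 3 ≤ e)
    (G : Type) [Group G] [Finite G] (N : Subgroup G) (θ : N → ℂ) (hθ : θ ∈ Irr N)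
    (hinv : ∀ g : G, ∀ a b : N, (b : G) = g * a * g⁻¹ → θ b = θ a)
    (Y : Type) [Group Y] [Finite Y] (q : G →* Y) (hY : SerK (PP e) (FewK e) Y)
    (hq : Function.Surjective q) (hker : q.ker = N) :
    (θ 1).re * ((sol Y).index : ℝ) ^ (1 / e) ≤ acd N θ :=
  inv_ca rKKP rBRG e G N θ hθ hinv Y q (rMAk e he Y hY) hq hker

/-- few conjugacy classes -/
theorem hKle (e : ℝ) (he : 91 / 25 ≤ e) (Y : Type) [Group Y] [Finite Y] (hs : sol Y = ⊥)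
    (H : Kle e Y) (G : Type) [Group G] [Finite G] (f : G →* Y) (hf : Function.Surjective f)
    (hk : Group.IsSolvable f.ker) :
    ∃ θ ∈ Irr (fit G), θ 1 = 1 ∧ ((fit G).index : ℝ) ≤ acd (fit G) θ ^ e :=
  rk_thm2 rSQ rKRN rTRD rCIS rFIN e he Y hs (rCNK e (by linarith) Y H) G f hf hk

theorem hKcl (e : ℝ) (he : 91 / 25 ≤ e) (Y : Type) [Group Y] [Finite Y] (hs : sol Y = ⊥)
    (H : (kc Y : ℝ) ≤ (Nat.card Y : ℝ) ^ (1 / 2 - 3 / (2 * e))) (G : Type) [Group G] [Finite G]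
    (f : G →* Y) (hf : Function.Surjective f) (hk : Group.IsSolvable f.ker) :
    ∃ θ ∈ Irr (fit G), θ 1 = 1 ∧ ((fit G).index : ℝ) ≤ acd (fit G) θ ^ e :=
  hKle e he Y hs (rCNC e (by linarith) Y H) G f hf hk

end FI.All4
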