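import Pool.Agent.H6.FN.Targets
import Pool.Agent.H6.FC.Asm3

/-!
# MP_7500ea_al, board fcn_modules: assembly
-/

open scoped Classical ComplexConjugate

namespace FI

open AMc AMt MulAction

/-- all permutation groups -/
theorem kpn (KPI : T_KPI) (KPB : T_KPB) (KPP : T_KPP) : T_KPN := by
  have h1 : (1 : ℝ) ≤ Real.exp 500 := Real.one_le_exp (by norm_num)
  have key : ∀ (n : ℕ) (α : Type) [Finite α], Nat.card α = n →
      ∀ T : Subgroup (Equiv.Perm α), PB (Real.exp 500) α T := by
    intro n
    induction n using Nat.strong_induction_on with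
    | _ n ih =>
    intro α _ hn T
    have hih : ∀ (β : Type) [Finite β] (T : Subgroup (Equiv.Perm β)),
        Nat.card β < Nat.card α → PB (Real.exp 500) β T := by
      intro β _ T' hβ
      exact ih _ (hn ▸ hβ) β rfl T'
    have hI := KPI _ h1 α hih
    by_cases h2 : 2 ≤ norb α T
    · exact hI T h2
    · have htr : IsPretransitive T α := by
        rw [pretransitive_iff_subsingleton_quotient]
        have h3 : Nat.card (orbitRel.Quotient T α) ≤ 1 := by
          have h4 : norb α T = Nat.card (orbitRel.Quotient T α) := rfl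
          omega
        exact (Finite.card_le_one_iff_subsingleton).1 h3
      by_cases hp : IsPreprimitive T α
      · exact KPP α T hp
      · exact KPB _ h1 α hih hI T htr hp
  intro α _ T
  exact key _ α rfl T

theorem few_nas (e : ℝ) (S : Type) [Group S] (h : Few e S) : NAS S := ⟨h.sim, h.nab⟩

theorem top_bot {P : ℕ → (S : Type) → [Group S] → Prop} {Q : (S : Type) → [Group S] → Prop}
    (TPI : T_TPI) (Y : Type) [Group Y] (n : ℕ) (N : ℕ → Subgroup Y) (h : SerN P Q Y n N)
    (hN : N n = ⊥) : Top Q Y := by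
  obtain ⟨Y', _, f, hf, hk, hT⟩ := h.top
  have hinj : Function.Injective f := by
    rw [injective_iff_map_eq_one]
    intro x hx
    have := (hk x).1 hx
    rw [hN] at this
    exact this
  exact TPI Q Y' Y ⟨(MulEquiv.ofBijective f ⟨hinj, hf⟩).symm⟩ hT

/-- the claim for groups with a series -/
theorem ma2 (KRN : T_KRN) (SLQ : T_SLQ) (TRD : T_TRD)
    (ST2 : T_ST2) (S1A : T_S1A) (S1E : T_S1E) (S1F : T_S1F) (S1C : T_S1C) (TPI : T_TPI)
    (SQN : T_SQN) (SLN : T_SLN) (SNN : T_SNN) (MLN : T_MLN) (TKY : T_TKY) (CNK : T_CNK)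
    (CNC : T_CNC) : T_MA2 := by
  intro e he3
  have he : 1 ≤ e := by linarith
  have key : ∀ (n : ℕ) (Y : Type) [Group Y] [Finite Y], Nat.card Y = n →
      SerT (PP e) (Few e) Y → CA e Y := by
    intro n
    induction n using Nat.strong_induction_on with
    | _ n ih =>
    intro Y _ _ hn hser0
    obtain ⟨len, N, hser⟩ := hser0
    by_cases hs : sol Y = ⊥
    swap
    · exact SLQ e Y (ih _ (hn ▸ sol_nt_card Y hs) _ rfl
        (SQN _ _ (cla_PP e) Y len N hser (sol Y) (SLN _ _ (few_nas e) Y len N hser)))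
    apply KRN e Y
    apply TRD e Y hs
    by_cases hN : N len = ⊥
    · exact CNK e (by linarith) Y (CNC e (by linarith) Y
        (TKY e he3 Y (top_bot TPI Y len N hser hN)))
    obtain ⟨L, hL, k, S, _, _, hLN, hk, hP, ⟨φ⟩⟩ := MLN (PP e) _ Y len N hs hser hN
    have hnas : NAS S := (cla_PP e).nas k S hP
    have hL1 : L ≠ ⊥ := by
      intro h0
      obtain ⟨a, b, hab⟩ := hnas.nab
      apply hab
      have hsub : Subsingleton L := by rw [h0]; infer_instance
      have h3 : Subsingleton (Fin k → S) := φ.symm.injective.subsingleton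
      have h4 := congrFun (Subsingleton.elim (fun _ : Fin k => a) (fun _ => 1)) ⟨0, hk⟩
      have h5 : a = 1 := h4
      rw [h5, one_mul, mul_one]
    have hQ : CA e (Y ⧸ L) := ih _ (hn ▸ quo_card Y L hL1) _ rfl
      (SQN _ _ (cla_PP e) Y len N hser L hLN)
    rcases hP with hg | ⟨hk1, hone⟩
    · exact ST2 e he Y hs L k S hk hg ⟨φ⟩ hQ
    · have hk2 : k = 1 := le_antisymm hk1 hk
      subst hk2
      have φ' : L ≃* S := φ.trans (MulEquiv.funUnique (Fin 1) S)
      obtain ⟨A, _, _, S', γ, hd⟩ := S1A e Y S hone L hL ⟨φ'⟩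
      have hker : SerT (PP e) (Few e) γ.ker :=
        SNN _ _ (cla_PP e) (few_nas e) Y γ.ker inferInstance ⟨len, N, hser⟩
      have hlt : Nat.card γ.ker < Nat.card Y := by
        apply lt_of_le_of_ne (Subgroup.card_le_card_group _)
        intro h0
        have h1 : γ.ker = ⊤ := Subgroup.eq_top_of_card_eq _ h0
        have h2 := hd.inf
        rw [h1, inf_top_eq] at h2
        exact hL1 h2
      have hK : CA e γ.ker := ih _ (hn ▸ hlt) _ rfl hker
      intro Γ _ _ Z h hC
      by_cases hLr : L ≤ h.range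
      · by_cases hsur : Function.Surjective (γ.comp h)
        · rcases hd.al.idx with h1 | h1
          · refine S1E e he Y A hs L S' γ hd hK Γ Z h hC hLr ?_
            rw [Subgroup.index_eq_one.1 h1]
            exact MonoidHom.range_eq_top.2 hsur
          · exact S1F e he Y A hs L S' γ hd h1 hK hQ Γ Z h hC hLr hsur
        · refine S1E e he Y A hs L S' γ hd hK Γ Z h hC hLr ?_
          have hle : S' ≤ (γ.comp h).range := by
            rw [← hd.map]
            rintro _ ⟨l, hl, rfl⟩
            obtain ⟨x, rfl⟩ := hLr hl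
            exact ⟨x, rfl⟩
          have hne : (γ.comp h).range.index ≠ 1 := by
            rw [Ne, Subgroup.index_eq_one]
            intro h2
            exact hsur (MonoidHom.range_eq_top.1 h2)
          have hmul := Subgroup.relIndex_mul_index hle
          rcases hd.al.idx with h1 | h1
          · rw [h1] at hmul
            exact absurd (Nat.eq_one_of_mul_eq_one_left hmul) hne
          · have hdv : (γ.comp h).range.index ∣ S'.index := Dvd.intro_left _ hmul
            rcases (Nat.dvd_prime h1).1 hdv with h2 | h2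
            · exact absurd h2 hne
            · rw [h2] at hmul
              have h3 : S'.relIndex (γ.comp h).range = 1 :=
                Nat.eq_of_mul_eq_mul_right h1.pos (by rw [hmul, one_mul])
              exact le_antisymm (Subgroup.relIndex_eq_one.1 h3) hle
      · exact S1C e he Y S hs L hone ⟨φ'⟩ hQ Γ Z h hC hLr
  intro Y _ _ hser
  exact key _ Y rfl hser

/-- the theorem on the Fitting subgroup for groups with a series -/
theorem sert_thm (SQN : T_SQN) (SLN : T_SLN) (MA2 : T_MA2) (FIN : T_FIN) (e : ℝ)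
    (he : 91 / 25 ≤ e) (G : Type) [Group G] [Finite G] (hG : SerT (PP e) (Few e) G) :
    ∃ θ ∈ Irr (fit G), θ 1 = 1 ∧ ((fit G).index : ℝ) ≤ acd (fit G) θ ^ e := by
  obtain ⟨len, N, hser⟩ := hG
  exact FIN e he G (MA2 e (by linarith) _
    (SQN _ _ (cla_PP e) G len N hser (sol G) (SLN _ _ (few_nas e) G len N hser)))

/-- monotonicity in the conditions -/
theorem sert_mono {P P' : ℕ → (S : Type) → [Group S] → Prop}
    {Q Q' : (S : Type) → [Group S] → Prop}
    (h : ∀ (k : ℕ) (S : Type) [Group S] [Finite S], P k S → P' k S)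
    (h' : ∀ (S : Type) [Group S], Q S → Q' S)
    (G : Type) [Group G] (hG : SerT P Q G) : SerT P' Q' G := by
  obtain ⟨n, N, hs⟩ := hG
  refine ⟨n, N, hs.bot, hs.nor, hs.mono, fun i hi => ?_, ?_⟩
  · obtain ⟨R, _, f, a, b, c⟩ := hs.fac i hi
    refine ⟨R, _, f, a, b, ?_⟩
    rcases c with c | ⟨k, S, _, _, d1, d2⟩
    · exact Or.inl c
    · exact Or.inr ⟨k, S, _, inferInstance, h k S d1, d2⟩
  · obtain ⟨Y, _, f, a, b, c⟩ := hs.top
    refine ⟨Y, _, f, a, b, fun L hL => ?_⟩
    obtain ⟨k, S, _, _, d1, d2⟩ := c L hL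
    exact ⟨k, S, _, inferInstance, h' S d1, d2⟩

/-- the former class -/
theorem ser_sert {P : ℕ → (S : Type) → [Group S] → Prop}
    {Q : (S : Type) → [Group S] → Prop} (G : Type) [Group G] (hG : Ser P G) : SerT P Q G := by
  obtain ⟨n, N, h0, h1, h2, h3, h4⟩ := hG
  refine ⟨n, N, h0, h2, h3, h4, ?_⟩
  refine ⟨Unit, inferInstance, 1, fun _ => ⟨1, rfl⟩, fun x => ?_, fun L hL => ?_⟩
  · rw [h1]
    simp
  · exact absurd (Subsingleton.elim _ _) hL.ne

/-- the reduction to `G / Sol(G)` -/
theorem rk_thm (SQ : T_SQ) (KRN : T_KRN) (TRD : T_TRD)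
    (CIS : T_CIS) (FIN : T_FIN) (e : ℝ) (he : 91 / 25 ≤ e) (Y : Type) [Group Y] [Finite Y]
    (hs : sol Y = ⊥) (H : CEN e Y)
    (G : Type) [Group G] [Finite G] (f : G →* Y) (hf : Function.Surjective f)
    (hk : Group.IsSolvable f.ker) :
    ∃ θ ∈ Irr (fit G), θ 1 = 1 ∧ ((fit G).index : ℝ) ≤ acd (fit G) θ ^ e := by
  have hY : CA e Y := KRN e Y (TRD e Y hs H)
  apply FIN e he G
  have h1 : sol G = f.ker := by
    have h2 := (SQ G Y f hf hk).2
    rw [hs] at h2
    rw [← h2]
    rfl
  have h3 : Nonempty (Y ≃* G ⧸ sol G) := by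
    refine ⟨MulEquiv.symm ?_⟩
    exact (QuotientGroup.quotientMulEquivOfEq h1).trans
      (QuotientGroup.quotientKerEquivOfSurjective f hf)
  exact CIS e Y _ h3 hY

end FI
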