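import Pool.Agent.H6.FC.Defs

/-!
# MP_7500ea_al, fourth part: numbers of conjugacy classes (definitions of the statements)
-/

namespace FI

/-- `L` is a minimal normal subgroup of `Y` -/
structure MinN {Y : Type} [Group Y] (L : Subgroup Y) : Prop where
  nor : L.Normal
  ne : L ≠ ⊥
  min : ∀ M : Subgroup Y, M.Normal → M ≤ L → M = ⊥ ∨ M = L

/-- every minimal normal subgroup of `Y` is a power of a finite group `S` with `Q S` -/
def Top (Q : (S : Type) → [Group S] → Prop) (Y : Type) [Group Y] : Prop :=
  ∀ L : Subgroup Y, MinN L → ∃ (k : ℕ) (S : Type) (_ : Group S) (_ : Finite S),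
    Q S ∧ Nonempty (L ≃* (Fin k → S))

/-- the nonabelian simple group `S` has few conjugacy classes and few automorphisms:
`exp 500 * k(S) * |Aut S| ≤ |S| ^ (3/2 - 3/(2e))` -/
structure Few (e : ℝ) (S : Type) [Group S] : Prop where
  sim : IsSimpleGroup S
  nab : ∃ a b : S, a * b ≠ b * a
  num : Real.exp 500 * Nat.card (ConjClasses S) * Nat.card (MulAut S) ≤
    (Nat.card S : ℝ) ^ (3 / 2 - 3 / (2 * e))

/-- the series `N 0 ≤ N 1 ≤ … ≤ N n` of normal subgroups of `G` starts with `1` and every factor is
solvable or isomorphic to a power `S ^ k` with `P k S`; every minimal normal subgroup of `G / N n`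
is a power of a group `S` with `Q S` -/
structure SerN (P : ℕ → (S : Type) → [Group S] → Prop) (Q : (S : Type) → [Group S] → Prop)
    (G : Type) [Group G] (n : ℕ) (N : ℕ → Subgroup G) : Prop where
  bot : N 0 = ⊥
  nor : ∀ i, (N i).Normal
  mono : ∀ i, N i ≤ N (i + 1)
  fac : ∀ i < n, ∃ (R : Type) (_ : Group R) (f : N (i + 1) →* R),
    Function.Surjective f ∧ (∀ x, f x = 1 ↔ (x : G) ∈ N i) ∧
    (Group.IsSolvable R ∨ ∃ (k : ℕ) (S : Type) (_ : Group S) (_ : Finite S),
      P k S ∧ Nonempty (R ≃* (Fin k → S)))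
  top : ∃ (Y : Type) (_ : Group Y) (f : G →* Y),
    Function.Surjective f ∧ (∀ x, f x = 1 ↔ x ∈ N n) ∧ Top Q Y

/-- `G` has a normal subgroup `N` such that every factor of a series of normal subgroups of `G`
from `1` to `N` is solvable or a power `S ^ k` with `P k S`, and every minimal normal subgroup of
`G / N` is a power of a group `S` with `Q S` -/
def SerT (P : ℕ → (S : Type) → [Group S] → Prop) (Q : (S : Type) → [Group S] → Prop)
    (G : Type) [Group G] : Prop :=
  ∃ (n : ℕ) (N : ℕ → Subgroup G), SerN P Q G n N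

/-- `S` is an alternating group of degree at least `20000` -/
def Alt (S : Type) [Group S] : Prop :=
  ∃ m : ℕ, 20000 ≤ m ∧ Nonempty (S ≃* alternatingGroup (Fin m))

end FI
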