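import Pool.Agent.H6.FN.All
import Pool.Agent.H6.FC.Asm3

/-!
# MP_7500ea_al, board fcn_modules: the reduction to the factor group by the solvable radical, with
a choice for every subgroup
-/

open scoped Classical ComplexConjugate

namespace FI.All4

open FI FI.All FI.All2 FI.All3 AMc AMt

/-- one subgroup with few conjugacy classes -/
theorem cnk1 (KCN : T_KCN) (SSQ : T_SSQ) (KKP : T_KKP) (e : ℝ) (Y : Type) [Group Y] [Finite Y]
    (Γ : Type) [Group Γ] [Fintype Γ] (Z : Subgroup Γ) (h : Γ →* Y) (hC : CEx Z h)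
    (hK : (h.range.index : ℝ) < (Nat.card Y : ℝ) ^ (1 / e) →
      (kc h.range : ℝ) ≤ (Nat.card Y : ℝ) ^ (1 / 2 - 1 / e) *
        (h.range.index : ℝ) ^ ((1 : ℝ) / 2)) : CEh e Z h := by
  intro ν hν
  obtain ⟨hfin, hpos, hkd⟩ := KKP Γ Z ⊤ le_top ν hν
  set T := h.range with hT
  have hy0 : (0 : ℝ) < (Nat.card Y : ℝ) := by exact_mod_cast Nat.card_pos
  have hT0 : (0 : ℝ) < (Nat.card T : ℝ) := by exact_mod_cast Nat.card_pos
  have hi0 : (0 : ℝ) < (T.index : ℝ) := by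
    exact_mod_cast Nat.pos_of_ne_zero Subgroup.index_ne_zero_of_finite
  have hmul : (Nat.card T : ℝ) * (T.index : ℝ) = (Nat.card Y : ℝ) := by
    exact_mod_cast Subgroup.card_mul_index T
  have hk0 : (0 : ℝ) ≤ (kk ⊤ ν : ℝ) := Nat.cast_nonneg _
  by_cases hcase : (T.index : ℝ) < (Nat.card Y : ℝ) ^ (1 / e)
  swap
  · rw [not_lt] at hcase
    exact mul_le_mul hcase hkd hk0 hi0.le
  -- the number of characters
  have hkc : (kk ⊤ ν : ℝ) ≤ (kc T : ℝ) := by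
    have h1 := KCN Γ Z ⊤ le_top (fun z hz g _ => hC.cen z hz g) T
      (h.rangeRestrict.comp (⊤ : Subgroup Γ).subtype) (by
        intro y
        obtain ⟨x, hx⟩ := h.rangeRestrict_surjective y
        exact ⟨⟨x, trivial⟩, hx⟩) (by
        intro x
        rw [← hC.ker]
        constructor
        · intro hx
          exact congrArg Subtype.val hx
        · intro hx
          exact Subtype.ext hx) ν hν
    exact_mod_cast h1
  have hkT := hK hcase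
  -- the sum of the squares
  have hrel : Z.relIndex ⊤ = Nat.card T := by
    rw [Subgroup.relIndex_top_right]
    have : Z = h.ker := by
      ext x
      rw [MonoidHom.mem_ker, hC.ker]
    rw [this, Subgroup.index_ker]
  have hsq := SSQ Γ Z ⊤ le_top (fun z hz g _ => hC.cen z hz g) ν hν
  rw [hrel] at hsq
  have hreal : ∀ χ ∈ Ab (⊤ : Subgroup Γ) ν, χ 1 = (((χ 1).re : ℝ) : ℂ) ∧ 0 ≤ (χ 1).re := by
    intro χ hχ
    obtain ⟨-, -, ⟨d, hd, hd2⟩, -⟩ := _root_.FI.Lib.lS1 Γ ⊤ χ hχ.1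
    rw [hd2]
    constructor
    · simp
    · rw [Complex.natCast_re]
      positivity
  have h1 : dd ⊤ ν = ∑ χ ∈ hfin.toFinset, (χ 1).re :=
    finsum_mem_eq_finite_toFinset_sum _ hfin
  have h2 : ∑ χ ∈ hfin.toFinset, (χ 1).re ^ 2 = (Nat.card T : ℝ) := by
    have h3 : ∑ᶠ χ ∈ Ab ⊤ ν, χ 1 * χ 1 = ∑ χ ∈ hfin.toFinset, χ 1 * χ 1 :=
      finsum_mem_eq_finite_toFinset_sum _ hfin
    rw [h3] at hsq
    have h4 : ∑ χ ∈ hfin.toFinset, χ 1 * χ 1 =
        ((∑ χ ∈ hfin.toFinset, (χ 1).re ^ 2 : ℝ) : ℂ) := by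
      push_cast
      apply Finset.sum_congr rfl
      intro χ hχ
      have := (hreal χ ((Set.Finite.mem_toFinset hfin).1 hχ)).1
      conv_lhs => rw [this]
      ring
    rw [h4] at hsq
    exact_mod_cast hsq
  have h5 : (Nat.card T : ℝ) ≤ dd ⊤ ν ^ 2 := by
    rw [h1, ← h2]
    exact Finset.sum_sq_le_sq_sum_of_nonneg (fun χ hχ => (hreal χ ((Set.Finite.mem_toFinset hfin).1 hχ)).2)
  have hdd0 : 0 ≤ dd ⊤ ν := hk0.trans hkd
  have h6 : (Nat.card T : ℝ) ^ ((1 : ℝ) / 2) ≤ dd ⊤ ν := by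
    rw [← Real.sqrt_eq_rpow]
    exact Real.sqrt_le_iff.2 ⟨hdd0, h5⟩
  have h7 : (Nat.card Y : ℝ) ^ (1 / e) * (kk ⊤ ν : ℝ) ≤
      (Nat.card Y : ℝ) ^ (1 / e) * ((Nat.card Y : ℝ) ^ (1 / 2 - 1 / e) *
        (T.index : ℝ) ^ ((1 : ℝ) / 2)) :=
    mul_le_mul_of_nonneg_left (hkc.trans hkT) (Real.rpow_nonneg hy0.le _)
  refine h7.trans ?_
  have h8 : (Nat.card Y : ℝ) ^ (1 / e) * ((Nat.card Y : ℝ) ^ (1 / 2 - 1 / e) *
        (T.index : ℝ) ^ ((1 : ℝ) / 2)) = (T.index : ℝ) * (Nat.card T : ℝ) ^ ((1 : ℝ) / 2) := by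
    rw [← mul_assoc, ← Real.rpow_add hy0]
    have h9 : 1 / e + (1 / 2 - 1 / e) = (1 : ℝ) / 2 := by ring
    rw [h9, ← hmul, Real.mul_rpow hT0.le hi0.le, mul_assoc, ← Real.rpow_add hi0]
    have h10 : (1 : ℝ) / 2 + 1 / 2 = 1 := by norm_num
    rw [h10, Real.rpow_one, mul_comm]
  rw [h8]
  exact mul_le_mul_of_nonneg_left h6 hi0.le

/-- the condition for one subgroup `T`: few conjugacy classes, or large average degrees -/
def Mix (e : ℝ) (Y : Type) [Group Y] : Prop :=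
  ∀ T : Subgroup Y, (T.index : ℝ) < (Nat.card Y : ℝ) ^ (1 / e) →
    (Nat.card (ConjClasses T) : ℝ) ≤
      (Nat.card Y : ℝ) ^ (1 / 2 - 1 / e) * (T.index : ℝ) ^ ((1 : ℝ) / 2) ∨
    ∀ (X : Type) [Group X] [Finite X] (q : X →* T),
      Function.Surjective q → q.ker ≤ Subgroup.center X → ∀ ν ∈ Irr q.ker,
      (Nat.card Y : ℝ) ^ (1 / e) ≤ T.index * acd q.ker ν

theorem mix_cen (e : ℝ) (Y : Type) [Group Y] [Finite Y] (H : Mix e Y) : CEN e Y := by
  intro Γ _ _ Z h hC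
  by_cases hc : (h.range.index : ℝ) < (Nat.card Y : ℝ) ^ (1 / e)
  swap
  · exact cnk1 rKCN rSSQ rKKP e Y Γ Z h hC fun h' => absurd h' hc
  rcases H h.range hc with H | H
  · exact cnk1 rKCN rSSQ rKKP e Y Γ Z h hC fun _ => H
  intro ν hν
  have hker : h.rangeRestrict.ker = Z := by
    ext x
    rw [MonoidHom.mem_ker, ← hC.ker]
    exact Subtype.ext_iff
  subst hker
  obtain ⟨ψ, hψ, rfl⟩ := hν
  have h1 := H Γ h.rangeRestrict h.rangeRestrict_surjective (by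
    intro z hz
    rw [Subgroup.mem_center_iff]
    intro g
    exact (hC.cen z hz g).symm) ψ hψ
  obtain ⟨h2, h3⟩ := rBRG Γ h.rangeRestrict.ker ψ hψ
  obtain ⟨-, k1, -⟩ := rKKP Γ _ ⊤ le_top _ h2
  have k2 : (0 : ℝ) ≤ kk ⊤ (ext0 h.rangeRestrict.ker ψ) := Nat.cast_nonneg _
  rw [← h3]
  calc _ ≤ (h.range.index : ℝ) * acd h.rangeRestrict.ker ψ * kk ⊤ (ext0 h.rangeRestrict.ker ψ) :=
        mul_le_mul_of_nonneg_right h1 k2
    _ = _ := by ring

/-- the reduction to `G / Sol(G)`: few conjugacy classes of `Y`, or a choice for every subgroup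
of small index -/
theorem hMix (e : ℝ) (he : 91 / 25 ≤ e) (Y : Type) [Group Y] [Finite Y] (hs : sol Y = ⊥)
    (H : (Nat.card (ConjClasses Y) : ℝ) ≤ (Nat.card Y : ℝ) ^ (1 / 2 - 3 / (2 * e)) ∨ Mix e Y)
    (G : Type) [Group G] [Finite G] (f : G →* Y) (hf : Function.Surjective f)
    (hk : Group.IsSolvable f.ker) :
    ∃ θ ∈ Irr (fit G), θ 1 = 1 ∧ ((fit G).index : ℝ) ≤ acd (fit G) θ ^ e := by
  rcases H with H | H
  · exact hKcl e he Y hs H G f hf hk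
  · exact rk_thm2 rSQ rKRN rTRD rCIS rFIN e he Y hs (mix_cen e Y H) G f hf hk

end FI.All4
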